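import Mathlib
import Pool.Agent.helper27.Fil.Defs

/-!
One-dimensional Gaussian facts (MP_3bca80_gt, Q1).
-/

namespace Fil24

open MeasureTheory ProbabilityTheory Set Filter Topology

/-- integrability of a nonnegative derivative on the line. -/
lemma integrable_deriv_of_nonneg {F F' : ℝ → ℝ} {m n : ℝ} (hd : ∀ x, HasDerivAt F (F' x) x)
    (h0 : ∀ x, 0 ≤ F' x) (hm : Tendsto F atBot (𝓝 m)) (hn : Tendsto F atTop (𝓝 n)) :
    Integrable F' := by
  rw [← integrableOn_univ, ← Set.Iic_union_Ioi (a := (0 : ℝ))]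
  apply IntegrableOn.union
  · have h1 : IntegrableOn (fun x => F' (-x)) (Ioi 0) := by
      apply integrableOn_Ioi_deriv_of_nonneg' (g := fun x => - F (-x)) (l := -m)
      · intro x _
        have h2 : HasDerivAt (fun x => F (-x)) (F' (-x) * (-1)) x :=
          HasDerivAt.comp x (hd (-x)) (hasDerivAt_neg x)
        refine h2.neg.congr_deriv ?_
        ring
      · intro x _
        exact h0 _
      · exact (hm.comp tendsto_neg_atTop_atBot).neg
    have h2 : IntegrableOn F' (Iio 0) := by
      have h3 := (Measure.measurePreserving_neg (volume : Measure ℝ)).integrableOn_comp_preimage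
        (f := F') (s := Iio 0) (MeasurableEquiv.neg ℝ).measurableEmbedding
      rw [← h3]
      have : (Neg.neg ⁻¹' Iio (0:ℝ)) = Ioi 0 := by ext x; simp
      rw [this]
      exact h1
    exact (integrableOn_Iic_iff_integrableOn_Iio (by simp)).2 h2
  · exact integrableOn_Ioi_deriv_of_nonneg' (fun x _ => hd x) (fun x _ => h0 x) hn

end Fil24

namespace Fil27

open MeasureTheory ProbabilityTheory Set Filter Topology

theorem gphi_pos (x : ℝ) : 0 < gphi x := gaussianPDFReal_pos 0 1 x one_ne_zero

theorem gphi_eq (x : ℝ) : gphi x = (√(2 * Real.pi))⁻¹ * Real.exp (-x ^ 2 / 2) := by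
  simp [gphi, gaussianPDFReal]

theorem integrable_gphi : Integrable gphi := integrable_gaussianPDFReal 0 1

theorem continuous_gphi : Continuous gphi := by
  have : gphi = fun x => (√(2 * Real.pi))⁻¹ * Real.exp (-x ^ 2 / 2) := funext gphi_eq
  rw [this]
  fun_prop

theorem hasDerivAt_gphi (x : ℝ) : HasDerivAt gphi (-x * gphi x) x := by
  have : gphi = fun x => (√(2 * Real.pi))⁻¹ * Real.exp (-x ^ 2 / 2) := funext gphi_eq
  rw [this]
  have h1 : HasDerivAt (fun x : ℝ => -x ^ 2 / 2) (-x) x := by
    have := ((hasDerivAt_pow 2 x).neg.div_const 2)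
    refine this.congr_deriv ?_
    simp
    ring
  have h2 := (h1.exp).const_mul ((√(2 * Real.pi))⁻¹)
  refine h2.congr_deriv ?_
  ring

theorem gQ_eq_integral (x : ℝ) : gQ x = ∫ t in Ioi x, gphi t := by
  unfold gQ Measure.real
  rw [gaussianReal_apply_eq_integral 0 one_ne_zero]
  exact ENNReal.toReal_ofReal (integral_nonneg fun t => (gphi_pos t).le)

theorem gQ_pos (x : ℝ) : 0 < gQ x := by
  have h : gaussianReal 0 1 (Ioi x) ≠ 0 := by
    intro h
    have := gaussianReal_absolutelyContinuous' 0 one_ne_zero h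
    simp at this
  exact ENNReal.toReal_pos h (measure_ne_top _ _)

theorem gQ_eq (x : ℝ) : gQ x = 1 - cdf (gaussianReal 0 1) x := by
  rw [cdf_eq_real]
  have : Ioi x = (Iic x)ᶜ := by ext; simp
  unfold gQ
  rw [this, probReal_compl_eq_one_sub measurableSet_Iic]

theorem gQ_lt_one (x : ℝ) : gQ x < 1 := by
  have h : gaussianReal 0 1 (Iic x) ≠ 0 := by
    intro h
    have := gaussianReal_absolutelyContinuous' 0 one_ne_zero h
    simp at this
  have h2 : 0 < (gaussianReal 0 1).real (Iic x) := ENNReal.toReal_pos h (measure_ne_top _ _)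
  rw [gQ_eq, cdf_eq_real]
  linarith

theorem tendsto_gQ_atTop : Tendsto gQ atTop (𝓝 0) := by
  have h := (tendsto_cdf_atTop (gaussianReal 0 1)).const_sub 1
  rw [sub_self] at h
  exact h.congr fun x => (gQ_eq x).symm

theorem tendsto_gQ_atBot : Tendsto gQ atBot (𝓝 1) := by
  have h := (tendsto_cdf_atBot (gaussianReal 0 1)).const_sub 1
  rw [sub_zero] at h
  exact h.congr fun x => (gQ_eq x).symm

theorem hasDerivAt_gQ (x : ℝ) : HasDerivAt gQ (-gphi x) x := by
  have h1 : gQ = fun x => gQ 0 - ∫ t in (0:ℝ)..x, gphi t := by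
    ext y
    rw [gQ_eq_integral 0, gQ_eq_integral y,
      ← intervalIntegral.integral_interval_add_Ioi (a := 0) (b := y) integrable_gphi.integrableOn
        integrable_gphi.integrableOn]
    ring
  rw [h1]
  have h2 := intervalIntegral.integral_hasDerivAt_right
    (integrable_gphi.intervalIntegrable (a := 0) (b := x))
    (continuous_gphi.stronglyMeasurableAtFilter _ _) continuous_gphi.continuousAt
  exact h2.const_sub _

theorem gE_pos (x : ℝ) : 0 < gE x := by
  unfold gE
  have := Real.log_neg (gQ_pos x) (gQ_lt_one x)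
  linarith

theorem gr_pos (x : ℝ) : 0 < gr x := div_pos (gphi_pos x) (gQ_pos x)

theorem hasDerivAt_gE (x : ℝ) : HasDerivAt gE (gr x) x := by
  have h := ((hasDerivAt_gQ x).log (gQ_pos x).ne').neg
  refine h.congr_deriv ?_
  unfold gr
  ring

theorem continuous_gQ : Continuous gQ :=
  continuous_iff_continuousAt.2 fun x => (hasDerivAt_gQ x).continuousAt

theorem continuous_gE : Continuous gE :=
  continuous_iff_continuousAt.2 fun x => (hasDerivAt_gE x).continuousAt

theorem continuous_gr : Continuous gr :=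
  continuous_gphi.div continuous_gQ fun x => (gQ_pos x).ne'

theorem tendsto_gphi_atTop : Tendsto gphi atTop (𝓝 0) := by
  have h1 : Tendsto (fun x : ℝ => -x ^ 2 / 2) atTop atBot := by
    have : Tendsto (fun x : ℝ => x ^ 2 / 2) atTop atTop :=
      (tendsto_pow_atTop two_ne_zero).atTop_div_const (by norm_num)
    have h2 := tendsto_neg_atTop_atBot.comp this
    refine h2.congr fun x => ?_
    simp only [Function.comp]
    ring
  have h2 := (Real.tendsto_exp_atBot.comp h1).const_mul ((√(2 * Real.pi))⁻¹)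
  rw [mul_zero] at h2
  exact h2.congr fun x => (gphi_eq x).symm

/-- `x Q(x) ≤ φ(x)` -/
theorem mul_gQ_le (x : ℝ) : x * gQ x ≤ gphi x := by
  -- g(x) = φ(x) - x Q(x) is antitone for x ≥ 0, tends to ≥ 0
  by_contra hcon
  push Not at hcon
  have hx : 0 < x := by
    by_contra h
    push Not at h
    have := mul_nonneg (neg_nonneg.2 h) (gQ_pos x).le
    have := gphi_pos x
    nlinarith
  -- t Q(t) - φ(t) is monotone and φ → 0, t * Q(t) = ∫ t φ ≤ ∫ s φ(s) = φ(t)
  have hder : ∀ t ∈ Ici x, HasDerivAt (fun t => -gphi t) (t * gphi t) t := by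
    intro t _
    refine (hasDerivAt_gphi t).neg.congr_deriv ?_
    ring
  have hnn : ∀ t ∈ Ioi x, 0 ≤ t * gphi t := fun t ht =>
    mul_nonneg (hx.le.trans (le_of_lt ht)) (gphi_pos t).le
  have hlim : Tendsto (fun t => -gphi t) atTop (𝓝 0) := by
    have := tendsto_gphi_atTop.neg
    rwa [neg_zero] at this
  have hint := integrableOn_Ioi_deriv_of_nonneg' hder hnn hlim
  have hval := integral_Ioi_of_hasDerivAt_of_nonneg' hder hnn hlim
  have h1 : x * gQ x ≤ ∫ t in Ioi x, t * gphi t := by
    rw [gQ_eq_integral, ← integral_const_mul]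
    apply setIntegral_mono_on (integrable_gphi.integrableOn.const_mul _) hint measurableSet_Ioi
    intro t ht
    exact mul_le_mul_of_nonneg_right (le_of_lt ht) (gphi_pos t).le
  rw [hval] at h1
  linarith

theorem hasDerivAt_gr (x : ℝ) : HasDerivAt gr (gr x * (gr x - x)) x := by
  have h := (hasDerivAt_gphi x).div (hasDerivAt_gQ x) (gQ_pos x).ne'
  refine h.congr_deriv ?_
  unfold gr
  have := (gQ_pos x).ne'
  field_simp
  ring

theorem le_gr (x : ℝ) : x ≤ gr x := by
  unfold gr
  rw [le_div_iff₀ (gQ_pos x)]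
  exact mul_gQ_le x

theorem gr_mono : Monotone gr := by
  apply monotone_of_deriv_nonneg (fun x => (hasDerivAt_gr x).differentiableAt)
  intro x
  rw [(hasDerivAt_gr x).deriv]
  exact mul_nonneg (gr_pos x).le (sub_nonneg.2 (le_gr x))

/-- antiderivative of `φ * gE` -/
theorem hasDerivAt_QlogQ (x : ℝ) :
    HasDerivAt (fun x => gQ x * Real.log (gQ x) - gQ x) (gphi x * gE x) x := by
  have h := ((hasDerivAt_gQ x).mul ((hasDerivAt_gQ x).log (gQ_pos x).ne')).sub (hasDerivAt_gQ x)
  refine h.congr_deriv ?_
  unfold gE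
  have := (gQ_pos x).ne'
  field_simp
  ring

theorem tendsto_QlogQ_atTop :
    Tendsto (fun x => gQ x * Real.log (gQ x) - gQ x) atTop (𝓝 0) := by
  have h := (Real.continuous_mul_log.tendsto 0).comp tendsto_gQ_atTop
  simp only [Real.log_zero, mul_zero] at h
  have h2 := h.sub tendsto_gQ_atTop
  rw [sub_zero] at h2
  exact h2

theorem tendsto_QlogQ_atBot :
    Tendsto (fun x => gQ x * Real.log (gQ x) - gQ x) atBot (𝓝 (-1)) := by
  have h := (Real.continuous_mul_log.tendsto 1).comp tendsto_gQ_atBot
  simp only [Real.log_one, mul_zero] at h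
  have h2 := h.sub tendsto_gQ_atBot
  rw [zero_sub] at h2
  exact h2

theorem integrable_gphi_mul_gE : Integrable (fun x => gphi x * gE x) :=
  Fil24.integrable_deriv_of_nonneg hasDerivAt_QlogQ
    (fun x => mul_nonneg (gphi_pos x).le (gE_pos x).le) tendsto_QlogQ_atBot tendsto_QlogQ_atTop

/-- integrability with respect to the Gaussian. -/
theorem integrable_gaussian_iff (f : ℝ → ℝ) :
    Integrable f (gaussianReal 0 1) ↔ Integrable (fun x => gphi x * f x) := by
  rw [gaussianReal_of_var_ne_zero 0 one_ne_zero,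
    integrable_withDensity_iff_integrable_smul' (measurable_gaussianPDF 0 1)
      (Filter.Eventually.of_forall fun x => gaussianPDF_lt_top)]
  apply integrable_congr
  apply Filter.Eventually.of_forall
  intro x
  simp [gphi, toReal_gaussianPDF]

theorem integral_gaussian_eq (f : ℝ → ℝ) :
    ∫ x, f x ∂(gaussianReal 0 1) = ∫ x, gphi x * f x := by
  rw [integral_gaussianReal_eq_integral_smul one_ne_zero]
  rfl

theorem integrable_gE : Integrable gE (gaussianReal 0 1) :=
  (integrable_gaussian_iff gE).2 integrable_gphi_mul_gE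

theorem integral_gE : ∫ x, gE x ∂(gaussianReal 0 1) = 1 := by
  rw [integral_gaussian_eq, integral_of_hasDerivAt_of_tendsto hasDerivAt_QlogQ
    integrable_gphi_mul_gE tendsto_QlogQ_atBot tendsto_QlogQ_atTop]
  norm_num

theorem log_gphi (x : ℝ) : Real.log (gphi x) = -(1 / 2 * Real.log (2 * Real.pi)) - x ^ 2 / 2 := by
  rw [gphi_eq, Real.log_mul (by positivity) (Real.exp_pos _).ne', Real.log_inv, Real.log_exp,
    Real.log_sqrt (by positivity)]
  ring

theorem log_gr (x : ℝ) :
    Real.log (gr x) = -(1 / 2 * Real.log (2 * Real.pi)) - x ^ 2 / 2 + gE x := by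
  unfold gr
  rw [Real.log_div (gphi_pos x).ne' (gQ_pos x).ne', log_gphi]
  unfold gE
  ring

theorem integrable_sq_gaussian : Integrable (fun x : ℝ => x ^ 2) (gaussianReal 0 1) := by
  have := (memLp_id_gaussianReal (μ := 0) (v := 1) 2)
  exact (memLp_two_iff_integrable_sq (by fun_prop)).1 this

theorem integral_sq_gaussian : ∫ x, x ^ 2 ∂(gaussianReal 0 1) = 1 := by
  have h := variance_fun_id_gaussianReal (μ := 0) (v := 1)
  rw [variance_eq_integral (by fun_prop), integral_id_gaussianReal] at h
  simpa using h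

theorem integrable_log_gr : Integrable (fun x => Real.log (gr x)) (gaussianReal 0 1) := by
  have : (fun x => Real.log (gr x))
      = fun x => -(1 / 2 * Real.log (2 * Real.pi)) - x ^ 2 / 2 + gE x := funext log_gr
  rw [this]
  exact ((integrable_const _).sub (integrable_sq_gaussian.div_const 2)).add integrable_gE

theorem integral_log_gr :
    ∫ x, Real.log (gr x) ∂(gaussianReal 0 1) = 1 / 2 - 1 / 2 * Real.log (2 * Real.pi) := by
  have : (fun x => Real.log (gr x))
      = fun x => -(1 / 2 * Real.log (2 * Real.pi)) - x ^ 2 / 2 + gE x := funext log_gr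
  have h1 : Integrable (fun x : ℝ => -(1 / 2 * Real.log (2 * Real.pi)) - x ^ 2 / 2)
      (gaussianReal 0 1) := (integrable_const _).sub (integrable_sq_gaussian.div_const 2)
  rw [this, integral_add h1 integrable_gE,
    integral_sub (integrable_const _) (integrable_sq_gaussian.div_const 2),
    integral_gE, integral_div, integral_sq_gaussian]
  simp
  ring

end Fil27
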