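import Mathlib
import Pool.Agent.helper24.FilGauss

/-!
The bound `√2/π ≤ gam0` (MP_3bca80_gt, Q1).
-/

namespace Fil27

open MeasureTheory ProbabilityTheory Set Filter Topology

theorem gphi_neg (x : ℝ) : gphi (-x) = gphi x := by
  rw [gphi_eq, gphi_eq]; norm_num

theorem gQ_neg (x : ℝ) : gQ (-x) = 1 - gQ x := by
  have h1 : gQ x = (gaussianReal 0 1).real (Iio (-x)) := by
    have hmap : (gaussianReal 0 1).map (fun x : ℝ => -x) = gaussianReal 0 1 := by
      rw [gaussianReal_map_neg, neg_zero]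
    unfold gQ Measure.real
    conv_lhs => rw [← hmap]
    rw [Measure.map_apply (by fun_prop) measurableSet_Ioi]
    congr 2
    ext y
    simp only [mem_preimage, mem_Ioi, mem_Iio]
    constructor <;> intro h <;> linarith
  have h2 : (gaussianReal 0 1).real (Iio (-x)) = (gaussianReal 0 1).real (Iic (-x)) := by
    have := nullSingletonClass_gaussianReal (μ := 0) (v := 1) one_ne_zero
    unfold Measure.real
    rw [measure_congr Iio_ae_eq_Iic]
  rw [h1, h2, gQ_eq (-x), cdf_eq_real]

theorem gQ_zero : gQ 0 = 1 / 2 := by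
  have := gQ_neg 0
  rw [neg_zero] at this
  linarith

/-- `4 F (1-F) ≤ exp(-x²/2)` for `x ≥ 0`. -/
theorem four_gQ_le_of_nonneg {x : ℝ} (hx : 0 ≤ x) :
    4 * (gQ x * (1 - gQ x)) ≤ Real.exp (-x ^ 2 / 2) := by
  set s : ℝ := √(2 * Real.pi) with hs
  have hs0 : 0 < s := by positivity
  have hphi : ∀ y, gphi y = s⁻¹ * Real.exp (-y ^ 2 / 2) := gphi_eq
  -- H
  set H : ℝ → ℝ := fun y => 4 * s⁻¹ * (1 - 2 * gQ y) - y with hH
  have hHd : ∀ y, HasDerivAt H (8 * s⁻¹ * gphi y - 1) y := by
    intro y
    have := ((((hasDerivAt_gQ y).const_mul 2).const_sub 1).const_mul (4 * s⁻¹)).sub (hasDerivAt_id y)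
    refine this.congr_deriv ?_
    ring
  have hH0 : H 0 = 0 := by simp [hH, gQ_zero]
  have hanti : AntitoneOn (fun y => 8 * s⁻¹ * gphi y - 1) (Ici 0) := by
    intro a ha b hb hab
    have ha : 0 ≤ a := ha
    simp only
    rw [hphi, hphi]
    have : Real.exp (-b ^ 2 / 2) ≤ Real.exp (-a ^ 2 / 2) := by
      apply Real.exp_le_exp.2
      nlinarith
    have h8 : 0 ≤ 8 * s⁻¹ := by positivity
    have h9 : 0 ≤ s⁻¹ := by positivity
    have := mul_le_mul_of_nonneg_left (mul_le_mul_of_nonneg_left this h9) h8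
    linarith
  have hconc : ConcaveOn ℝ (Ici 0) H := by
    apply AntitoneOn.concaveOn_of_deriv (convex_Ici 0)
    · exact fun y _ => (hHd y).continuousAt.continuousWithinAt
    · exact fun y _ => (hHd y).differentiableAt.differentiableWithinAt
    · have : deriv H = fun y => 8 * s⁻¹ * gphi y - 1 := funext fun y => (hHd y).deriv
      rw [this]
      exact hanti.mono interior_subset
  set G : ℝ → ℝ := fun y => Real.exp (-y ^ 2 / 2) - 4 * (gQ y * (1 - gQ y)) with hG
  have hGd : ∀ y, HasDerivAt G (Real.exp (-y ^ 2 / 2) * H y) y := by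
    intro y
    have h1 : HasDerivAt (fun x : ℝ => -x ^ 2 / 2) (-y) y := by
      have := ((hasDerivAt_pow 2 y).neg.div_const 2)
      refine this.congr_deriv ?_
      simp
      ring
    have h2 := h1.exp.sub (((hasDerivAt_gQ y).mul ((hasDerivAt_gQ y).const_sub 1)).const_mul 4)
    refine h2.congr_deriv ?_
    rw [hphi]
    simp only [hH]
    ring
  have hGc : Continuous G := continuous_iff_continuousAt.2 fun y => (hGd y).continuousAt
  have hG0 : G 0 = 0 := by simp [hG, gQ_zero]; norm_num
  suffices h : 0 ≤ G x by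
    simp only [hG] at h
    linarith
  by_cases hHx : 0 ≤ H x
  · have hm : MonotoneOn G (Icc 0 x) := by
      apply monotoneOn_of_deriv_nonneg (convex_Icc _ _) hGc.continuousOn
      · exact fun y _ => (hGd y).differentiableAt.differentiableWithinAt
      · intro y hy
        rw [interior_Icc] at hy
        rw [(hGd y).deriv]
        apply mul_nonneg (Real.exp_pos _).le
        -- concavity: y between 0 and x
        have hxpos : 0 < x := hy.1.trans hy.2
        have hc := hconc.2 (Set.mem_Ici.2 le_rfl) (Set.mem_Ici.2 hx)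
          (show 0 ≤ 1 - y / x by rw [sub_nonneg, div_le_one hxpos]; exact hy.2.le)
          (show 0 ≤ y / x by exact div_nonneg hy.1.le hx) (by ring)
        simp only [smul_eq_mul, hH0, mul_zero, zero_add] at hc
        rw [div_mul_cancel₀ _ hxpos.ne'] at hc
        exact (mul_nonneg (div_nonneg hy.1.le hx) hHx).trans hc
    have := hm (left_mem_Icc.2 hx) (right_mem_Icc.2 hx) hx
    rw [hG0] at this
    exact this
  · push Not at hHx
    have hxpos : 0 < x := by
      rcases hx.eq_or_lt with h | h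
      · rw [← h, hH0] at hHx; exact absurd hHx (lt_irrefl _)
      · exact h
    have hm : AntitoneOn G (Ici x) := by
      apply antitoneOn_of_deriv_nonpos (convex_Ici _) hGc.continuousOn
      · exact fun y _ => (hGd y).differentiableAt.differentiableWithinAt
      · intro y hy
        rw [interior_Ici] at hy
        have hy : x < y := hy
        rw [(hGd y).deriv]
        apply mul_nonpos_of_nonneg_of_nonpos (Real.exp_pos _).le
        have hypos : 0 < y := hxpos.trans hy
        have hc := hconc.2 (Set.mem_Ici.2 le_rfl) (Set.mem_Ici.2 hypos.le)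
          (show 0 ≤ 1 - x / y by rw [sub_nonneg, div_le_one hypos]; exact hy.le)
          (show 0 ≤ x / y by positivity) (by ring)
        simp only [smul_eq_mul, hH0, mul_zero, zero_add] at hc
        rw [div_mul_cancel₀ _ hypos.ne'] at hc
        by_contra hcon
        push Not at hcon
        have : 0 < x / y * H y := by positivity
        linarith
    have hlim : Tendsto G atTop (𝓝 0) := by
      have h1 : Tendsto (fun x : ℝ => Real.exp (-x ^ 2 / 2)) atTop (𝓝 0) := by
        have := (tendsto_gphi_atTop).const_mul s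
        rw [mul_zero] at this
        refine this.congr fun y => ?_
        rw [hphi]
        field_simp
      have h2 : Tendsto (fun y => 4 * (gQ y * (1 - gQ y))) atTop (𝓝 0) := by
        have := (tendsto_gQ_atTop.mul (tendsto_gQ_atTop.const_sub 1)).const_mul 4
        simpa using this
      have := h1.sub h2
      rwa [sub_zero] at this
    exact le_of_tendsto hlim ((eventually_ge_atTop x).mono fun y hy =>
      hm (mem_Ici.2 le_rfl) (mem_Ici.2 hy) hy)

theorem four_gQ_le (x : ℝ) : 4 * (gQ x * (1 - gQ x)) ≤ Real.exp (-x ^ 2 / 2) := by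
  rcases le_total 0 x with h | h
  · exact four_gQ_le_of_nonneg h
  · have := four_gQ_le_of_nonneg (neg_nonneg.2 h)
    rw [gQ_neg, neg_sq] at this
    linarith

/-- the density `φ r P`, `P = φ - x Q`. -/
noncomputable def gD (x : ℝ) : ℝ := gphi x * (gr x * (gphi x - x * gQ x))

theorem gD_sym (x : ℝ) : 4 * (gphi x ^ 3 * Real.exp (x ^ 2 / 2)) ≤ gD x + gD (-x) := by
  have hq := gQ_pos x
  have hq1 : 0 < 1 - gQ x := by linarith [gQ_lt_one x]
  have hp := gphi_pos x
  have e : gD x + gD (-x) = gphi x ^ 3 / (gQ x * (1 - gQ x)) := by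
    unfold gD gr
    rw [gphi_neg, gQ_neg]
    field_simp
    ring
  rw [e, le_div_iff₀ (mul_pos hq hq1)]
  have h := four_gQ_le x
  have h2 : Real.exp (x ^ 2 / 2) * Real.exp (-x ^ 2 / 2) = 1 := by
    rw [← Real.exp_add]
    have : x ^ 2 / 2 + -x ^ 2 / 2 = 0 := by ring
    rw [this, Real.exp_zero]
  calc 4 * (gphi x ^ 3 * Real.exp (x ^ 2 / 2)) * (gQ x * (1 - gQ x))
      = gphi x ^ 3 * Real.exp (x ^ 2 / 2) * (4 * (gQ x * (1 - gQ x))) := by ring
    _ ≤ gphi x ^ 3 * Real.exp (x ^ 2 / 2) * Real.exp (-x ^ 2 / 2) := by gcongr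
    _ = gphi x ^ 3 := by rw [mul_assoc, h2, mul_one]

theorem four_gphi_eq (x : ℝ) :
    4 * (gphi x ^ 3 * Real.exp (x ^ 2 / 2)) = 4 * (√(2 * Real.pi))⁻¹ ^ 3 * Real.exp (-1 * x ^ 2) := by
  rw [gphi_eq, mul_pow, ← Real.exp_nat_mul, mul_assoc, ← Real.exp_add, ← mul_assoc]
  congr 2
  push_cast
  ring

theorem integrable_four_gphi : Integrable (fun x => 4 * (gphi x ^ 3 * Real.exp (x ^ 2 / 2))) := by
  simp only [four_gphi_eq]
  exact (integrable_exp_neg_mul_sq one_pos).const_mul _

theorem integral_four_gphi :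
    ∫ x, 4 * (gphi x ^ 3 * Real.exp (x ^ 2 / 2)) = √2 / Real.pi := by
  simp only [four_gphi_eq]
  rw [integral_const_mul, integral_gaussian, div_one, Real.sqrt_mul (by norm_num)]
  have hpi := Real.pi_pos
  have h1 : √Real.pi ^ 2 = Real.pi := Real.sq_sqrt hpi.le
  have h2 : √(2:ℝ) ^ 2 = 2 := Real.sq_sqrt (by norm_num)
  have h3 : 0 < √Real.pi := Real.sqrt_pos.2 hpi
  have h4 : 0 < √(2:ℝ) := Real.sqrt_pos.2 (by norm_num)
  field_simp
  have h5 : √(2:ℝ) ^ 4 = 4 := by
    calc √(2:ℝ) ^ 4 = (√(2:ℝ) ^ 2) ^ 2 := by ring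
      _ = 4 := by rw [h2]; norm_num
  nlinarith

theorem hasDerivAt_gP (x : ℝ) : HasDerivAt (fun x => x * gQ x - gphi x) (gQ x) x := by
  have h := ((hasDerivAt_id x).mul (hasDerivAt_gQ x)).sub (hasDerivAt_gphi x)
  refine h.congr_deriv ?_
  simp

theorem tendsto_mul_gQ : Tendsto (fun x => x * gQ x) atTop (𝓝 0) := by
  apply tendsto_of_tendsto_of_tendsto_of_le_of_le' tendsto_const_nhds tendsto_gphi_atTop
  · filter_upwards [eventually_ge_atTop 0] with x hx
    exact mul_nonneg hx (gQ_pos x).le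
  · exact Filter.Eventually.of_forall fun x => mul_gQ_le x

theorem tendsto_gP : Tendsto (fun x => x * gQ x - gphi x) atTop (𝓝 0) := by
  have := tendsto_mul_gQ.sub tendsto_gphi_atTop
  rwa [sub_zero] at this

theorem integral_Ioi_gQ (x : ℝ) : ∫ y in Ioi x, gQ y = gphi x - x * gQ x := by
  rw [integral_Ioi_of_hasDerivAt_of_nonneg' (fun y _ => hasDerivAt_gP y)
    (fun y _ => (gQ_pos y).le) tendsto_gP]
  ring

theorem gr_mul_gP_le (x : ℝ) : gr x * (gphi x - x * gQ x) ≤ gQ x := by
  have hint : IntegrableOn gQ (Ioi x) :=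
    integrableOn_Ioi_deriv_of_nonneg' (fun y _ => hasDerivAt_gP y)
      (fun y _ => (gQ_pos y).le) tendsto_gP
  rw [← integral_Ioi_gQ, ← integral_const_mul, gQ_eq_integral x]
  apply setIntegral_mono_on (hint.const_mul _) integrable_gphi.integrableOn measurableSet_Ioi
  intro y hy
  have h1 : gr x ≤ gr y := gr_mono (le_of_lt hy)
  calc gr x * gQ y ≤ gr y * gQ y := mul_le_mul_of_nonneg_right h1 (gQ_pos y).le
    _ = gphi y := by unfold gr; rw [div_mul_cancel₀ _ (gQ_pos y).ne']

theorem gP_nonneg (x : ℝ) : 0 ≤ gphi x - x * gQ x := sub_nonneg.2 (mul_gQ_le x)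

theorem gD_nonneg (x : ℝ) : 0 ≤ gD x :=
  mul_nonneg (gphi_pos x).le (mul_nonneg (gr_pos x).le (gP_nonneg x))

theorem continuous_gD : Continuous gD := by
  unfold gD
  exact continuous_gphi.mul (continuous_gr.mul (continuous_gphi.sub (continuous_id.mul continuous_gQ)))

theorem integrable_gD : Integrable gD := by
  apply integrable_gphi.mono' continuous_gD.aestronglyMeasurable
  apply Filter.Eventually.of_forall
  intro x
  rw [Real.norm_of_nonneg (gD_nonneg x)]
  calc gD x ≤ gphi x * 1 :=
        mul_le_mul_of_nonneg_left ((gr_mul_gP_le x).trans (gQ_lt_one x).le) (gphi_pos x).le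
    _ = gphi x := mul_one _

theorem gD_add_neg (x : ℝ) : gD x + gD (-x) = gphi x ^ 3 / (gQ x * (1 - gQ x)) := by
  have hq := gQ_pos x
  have hq1 : 0 < 1 - gQ x := by linarith [gQ_lt_one x]
  unfold gD gr
  rw [gphi_neg, gQ_neg]
  field_simp
  ring

theorem integrable_cube : Integrable (fun x => gphi x ^ 3 / (gQ x * (1 - gQ x))) := by
  simp only [← gD_add_neg]
  exact integrable_gD.add integrable_gD.comp_neg

theorem int_cube_ge : √2 / Real.pi ≤ ∫ x, gphi x ^ 3 / (gQ x * (1 - gQ x)) := by
  rw [← integral_four_gphi]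
  apply integral_mono integrable_four_gphi integrable_cube
  intro x
  simp only
  rw [← gD_add_neg]
  exact gD_sym x

theorem integral_gD : 2 * ∫ x, gD x = ∫ x, gphi x ^ 3 / (gQ x * (1 - gQ x)) := by
  simp only [← gD_add_neg]
  rw [integral_add integrable_gD integrable_gD.comp_neg, integral_neg_eq_self]
  ring

end Fil27
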