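import Mathlib
import Pool.Agent.helper27.Fil.Defs

/-!
Scalar part of the proof of Filliman's lower bound (MP_3bca80_gt, Q1).
-/

namespace Fil24

open Real

/-- Padé bound for the logarithm. -/
lemma log_pade {y : ℝ} (hy : 0 ≤ y) : log (1 + y) ≤ y * (6 + y) / (6 + 4 * y) := by
  have hmono : MonotoneOn (fun y : ℝ => y * (6 + y) / (6 + 4 * y) - log (1 + y)) (Set.Ici 0) := by
    apply monotoneOn_of_deriv_nonneg (convex_Ici 0)
    · apply ContinuousOn.sub
      · apply ContinuousOn.div
        · fun_prop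
        · fun_prop
        · intro x hx
          have : (0:ℝ) ≤ x := hx
          positivity
      · apply ContinuousOn.log
        · fun_prop
        · intro x hx
          have : (0:ℝ) ≤ x := hx
          positivity
    · intro x hx
      rw [interior_Ici] at hx
      have hx0 : (0:ℝ) < x := hx
      apply DifferentiableAt.differentiableWithinAt
      have h1 : (6 + 4 * x) ≠ 0 := by positivity
      have h2 : (1 + x) ≠ 0 := by positivity
      fun_prop (disch := assumption)
    · intro x hx
      rw [interior_Ici] at hx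
      have hx0 : (0:ℝ) < x := hx
      have h1 : (6 + 4 * x) ≠ 0 := by positivity
      have h2 : (1 + x) ≠ 0 := by positivity
      have hd : HasDerivAt (fun y : ℝ => y * (6 + y) / (6 + 4 * y) - log (1 + y))
          (((1 * (6 + x) + x * 1) * (6 + 4 * x) - x * (6 + x) * (4 * 1)) / (6 + 4 * x) ^ 2
            - 1 / (1 + x)) x := by
        apply HasDerivAt.sub
        · apply HasDerivAt.div
          · apply HasDerivAt.mul (hasDerivAt_id x)
            exact (hasDerivAt_id x).const_add 6
          · exact ((hasDerivAt_id x).const_mul 4).const_add 6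
          · exact h1
        · exact ((hasDerivAt_id x).const_add 1).log h2
      rw [hd.deriv]
      have : ((1 * (6 + x) + x * 1) * (6 + 4 * x) - x * (6 + x) * (4 * 1)) / (6 + 4 * x) ^ 2
            - 1 / (1 + x) = 4 * x ^ 3 / ((6 + 4 * x) ^ 2 * (1 + x)) := by
        field_simp
        ring
      rw [this]
      positivity
  have h0 := hmono (Set.mem_Ici.2 le_rfl) (Set.mem_Ici.2 hy) hy
  simp only [zero_mul, zero_div, add_zero, log_one, sub_zero, mul_zero] at h0
  linarith

/-- The pointwise derivative estimate. -/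
lemma star {a s c : ℝ} (ha : 2 ≤ a) (hs0 : 0 < s) (hs1 : s ≤ 1) (hc : 7 / 16 ≤ c) :
    log (1 + s / a) - s / (a + s) ≤ c / (2 * (a + 1)) * (s * √s) := by
  have ha0 : 0 < a := by linarith
  have hpade := log_pade (y := s / a) (by positivity)
  set x := √s with hx
  have hx0 : 0 < x := Real.sqrt_pos.2 hs0
  have hx1 : x ≤ 1 := by rw [hx]; exact Real.sqrt_le_one.2 hs1
  have hsx : s = x ^ 2 := by rw [hx, Real.sq_sqrt hs0.le]
  have e1 : s / a * (6 + s / a) / (6 + 4 * (s / a)) - s / (a + s)
      = s ^ 2 * (3 * a + s) / (a * (6 * a + 4 * s) * (a + s)) := by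
    have h1 : (6 * a + 4 * s) ≠ 0 := by positivity
    have h2 : a + s ≠ 0 := by positivity
    have h3 : (6 + 4 * (s / a)) ≠ 0 := by positivity
    field_simp
    ring
  have h2 : s ^ 2 * (3 * a + s) / (a * (6 * a + 4 * s) * (a + s))
      ≤ c / (2 * (a + 1)) * (s * x) := by
    rw [div_mul_eq_mul_div, div_le_div_iff₀ (by positivity) (by positivity)]
    -- s^2 (3a+s) 2(a+1) ≤ c s x a (6a+4s)(a+s)
    have key : x * (3 * a + s) * (2 * (a + 1)) ≤ c * (a * (6 * a + 4 * s) * (a + s)) := by
      have hD : x * (3 * a + s) * ((6 * a + 4) * (a + 1)) ≤ (3 * a + 1) * ((6 * a + 4 * s) * (a + s)) := by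
        rw [hsx]
        have hE : 0 ≤ (18 * a ^ 3 + 6 * a ^ 2) - (24 * a ^ 2 + 12 * a) * x + (6 * a ^ 2 - 2 * a) * x ^ 2
            - (12 * a + 4) * x ^ 3 := by
          have hx3 : x ^ 3 ≤ 1 := pow_le_one₀ hx0.le hx1
          have hx2 : 0 ≤ (6 * a ^ 2 - 2 * a) * x ^ 2 := by
            apply mul_nonneg _ (by positivity)
            nlinarith
          nlinarith [mul_nonneg (by positivity : (0:ℝ) ≤ 24 * a ^ 2 + 12 * a) (sub_nonneg.2 hx1),
            mul_nonneg (by positivity : (0:ℝ) ≤ 12 * a + 4) (sub_nonneg.2 hx3),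
            mul_nonneg ha0.le (mul_nonneg ha0.le (sub_nonneg.2 ha)), mul_nonneg ha0.le (sub_nonneg.2 ha)]
        nlinarith [mul_nonneg (sub_nonneg.2 hx1) hE]
      have hc2 : (3 * a + 1) * (2 * (a + 1)) ≤ c * a * ((6 * a + 4) * (a + 1)) := by
        have : 2 * (3 * a + 1) ≤ c * a * (6 * a + 4) := by
          have : 7 / 16 * (a * (6 * a + 4)) ≤ c * (a * (6 * a + 4)) :=
            mul_le_mul_of_nonneg_right hc (by positivity)
          nlinarith
        nlinarith
      have hpos : 0 < (6 * a + 4) * (a + 1) := by positivity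
      have hpos2 : 0 ≤ (6 * a + 4 * s) * (a + s) := by positivity
      have h3 : x * (3 * a + s) * (2 * (a + 1)) * ((6 * a + 4) * (a + 1))
          ≤ c * (a * (6 * a + 4 * s) * (a + s)) * ((6 * a + 4) * (a + 1)) := by
        calc x * (3 * a + s) * (2 * (a + 1)) * ((6 * a + 4) * (a + 1))
            = (x * (3 * a + s) * ((6 * a + 4) * (a + 1))) * (2 * (a + 1)) := by ring
          _ ≤ ((3 * a + 1) * ((6 * a + 4 * s) * (a + s))) * (2 * (a + 1)) :=
              mul_le_mul_of_nonneg_right hD (by positivity)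
          _ = ((3 * a + 1) * (2 * (a + 1))) * ((6 * a + 4 * s) * (a + s)) := by ring
          _ ≤ (c * a * ((6 * a + 4) * (a + 1))) * ((6 * a + 4 * s) * (a + s)) :=
              mul_le_mul_of_nonneg_right hc2 hpos2
          _ = _ := by ring
      exact le_of_mul_le_mul_right h3 hpos
    have hsx' : s = x * x := by rw [hsx]; ring
    calc s ^ 2 * (3 * a + s) * (2 * (a + 1)) = (s * x) * (x * (3 * a + s) * (2 * (a + 1))) := by
          rw [show s ^ 2 = s * (x * x) by rw [← hsx']; ring]; ring
      _ ≤ (s * x) * (c * (a * (6 * a + 4 * s) * (a + s))) :=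
          mul_le_mul_of_nonneg_left key (by positivity)
      _ = _ := by ring
  linarith

lemma key_ineq {a s c : ℝ} (ha : 2 ≤ a) (hs0 : 0 ≤ s) (hs1 : s ≤ 1) (hc : 7 / 16 ≤ c) :
    log (1 + s / a) - s * log (1 + 1 / a) ≤ c / (a + 1) * (s * (1 - √s)) := by
  rcases hs0.eq_or_lt with h | hs0
  · rw [← h]; simp
  have ha0 : 0 < a := by linarith
  have hanti : AntitoneOn (fun t : ℝ => c / (a + 1) * (1 - √t) - log (1 + t / a) / t) (Set.Icc s 1) := by
    apply antitoneOn_of_deriv_nonpos (convex_Icc s 1)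
    · apply ContinuousOn.sub
      · fun_prop
      · apply ContinuousOn.div
        · apply ContinuousOn.log
          · fun_prop
          · intro x hx
            have : 0 < x := lt_of_lt_of_le hs0 hx.1
            positivity
        · fun_prop
        · intro x hx
          exact (lt_of_lt_of_le hs0 hx.1).ne'
    · intro x hx
      rw [interior_Icc] at hx
      have hx0 : (0:ℝ) < x := lt_trans hs0 hx.1
      apply DifferentiableAt.differentiableWithinAt
      have h1 : (1 + x / a) ≠ 0 := by positivity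
      have h2 : x ≠ 0 := hx0.ne'
      apply DifferentiableAt.sub
      · apply DifferentiableAt.const_mul
        apply DifferentiableAt.const_sub
        exact (Real.hasDerivAt_sqrt h2).differentiableAt
      · fun_prop (disch := assumption)
    · intro x hx
      rw [interior_Icc] at hx
      have hx0 : (0:ℝ) < x := lt_trans hs0 hx.1
      have hx1 : x ≤ 1 := hx.2.le
      have h1 : (1 + x / a) ≠ 0 := by positivity
      have h2 : x ≠ 0 := hx0.ne'
      have hd : HasDerivAt (fun t : ℝ => c / (a + 1) * (1 - √t) - log (1 + t / a) / t)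
          (c / (a + 1) * (-(1 / (2 * √x))) -
            ((1 / a) / (1 + x / a) * x - log (1 + x / a) * 1) / x ^ 2) x := by
        apply HasDerivAt.sub
        · exact ((Real.hasDerivAt_sqrt h2).const_sub 1).const_mul _
        · apply HasDerivAt.div
          · exact (((hasDerivAt_id x).div_const a).const_add 1).log h1
          · exact hasDerivAt_id x
          · exact h2
      rw [hd.deriv]
      have hst := star ha hx0 hx1 hc
      have hsq : 0 < √x := Real.sqrt_pos.2 hx0
      have e1 : (1 / a) / (1 + x / a) * x = x / (a + x) := by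
        field_simp
      rw [e1]
      have e2 : c / (a + 1) * (-(1 / (2 * √x))) = - (c / (2 * (a + 1)) * (x * √x)) / x ^ 2 := by
        have : x = √x * √x := (Real.mul_self_sqrt hx0.le).symm
        field_simp
        nlinarith [Real.sq_sqrt hx0.le]
      rw [e2, ← sub_div]
      apply div_nonpos_of_nonpos_of_nonneg _ (by positivity)
      linarith
  have h := hanti (Set.left_mem_Icc.2 hs1) (Set.right_mem_Icc.2 hs1) hs1
  simp only [sqrt_one, sub_self, mul_zero, div_one, zero_sub] at h
  have h' : log (1 + s / a) / s ≤ c / (a + 1) * (1 - √s) + log (1 + 1 / a) := by linarith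
  rw [div_le_iff₀ hs0] at h'
  nlinarith

/-- The concave function `s (1 - √s)`. -/
noncomputable def gg (s : ℝ) : ℝ := s * (1 - √s)

lemma gg_nonneg {s : ℝ} (h0 : 0 ≤ s) (h1 : s ≤ 1) : 0 ≤ gg s := by
  unfold gg
  have : √s ≤ 1 := Real.sqrt_le_one.2 h1
  apply mul_nonneg h0
  linarith

lemma mul_sqrt_eq_rpow {x : ℝ} (hx : 0 ≤ x) : x * √x = x ^ (3 / 2 : ℝ) := by
  rw [Real.sqrt_eq_rpow, show (3 / 2 : ℝ) = 1 + 1 / 2 by norm_num,
    Real.rpow_add_of_nonneg hx (by norm_num) (by norm_num), Real.rpow_one]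

lemma convex_mul_sqrt : ConvexOn ℝ (Set.Ici 0) (fun x : ℝ => x * √x) := by
  have h := convexOn_rpow (p := 3 / 2) (by norm_num)
  exact h.congr (fun x hx => (mul_sqrt_eq_rpow hx).symm)

lemma gg_add_le_one {s u : ℝ} (hs : 0 ≤ s) (hu : 0 ≤ u) :
    gg (s + u) ≤ gg s + gg u := by
  unfold gg
  have h1 : √s ≤ √(s + u) := Real.sqrt_le_sqrt (by linarith)
  have h2 : √u ≤ √(s + u) := Real.sqrt_le_sqrt (by linarith)
  nlinarith [mul_le_mul_of_nonneg_left h1 hs, mul_le_mul_of_nonneg_left h2 hu]

lemma gg_add_ge_one {s u : ℝ} (hs1 : s ≤ 1) (hu1 : u ≤ 1) (hsu : 1 ≤ s + u) :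
    gg (s + u - 1) ≤ gg s + gg u := by
  unfold gg
  set v := s + u - 1 with hv
  have hv0 : 0 ≤ v := by linarith
  rcases eq_or_lt_of_le (show v ≤ 1 by linarith) with h | h
  · have hs : s = 1 := by linarith
    have hu : u = 1 := by linarith
    rw [h, hs, hu]; simp
  · have h1v : 0 < 1 - v := by linarith
    set l := (s - v) / (1 - v) with hl
    have hl0 : 0 ≤ l := div_nonneg (by linarith) h1v.le
    have hl1 : l ≤ 1 := by rw [hl, div_le_one h1v]; linarith
    have hls : l * (1 - v) = s - v := by rw [hl]; field_simp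
    have c1 := convex_mul_sqrt.2 (Set.mem_Ici.2 (zero_le_one)) (Set.mem_Ici.2 hv0) hl0
      (by linarith : 0 ≤ 1 - l) (by ring)
    have c2 := convex_mul_sqrt.2 (Set.mem_Ici.2 (zero_le_one)) (Set.mem_Ici.2 hv0)
      (by linarith : 0 ≤ 1 - l) hl0 (by ring)
    simp only [smul_eq_mul, sqrt_one, mul_one] at c1 c2
    have e1 : l + (1 - l) * v = s := by linarith
    have e2 : (1 - l) + l * v = u := by linarith
    rw [e1] at c1
    rw [e2] at c2
    linarith

lemma gg_fract_add {s x : ℝ} (hs0 : 0 ≤ s) (hs1 : s ≤ 1) :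
    gg (Int.fract (s + x)) ≤ gg s + gg (Int.fract x) := by
  have hx0 := Int.fract_nonneg x
  have hx1 := Int.fract_lt_one x
  have e : Int.fract (s + x) = Int.fract (s + Int.fract x) := by
    conv_lhs => rw [← Int.floor_add_fract x]
    rw [← add_assoc, add_comm s, add_assoc, Int.fract_intCast_add]
  rw [e]
  by_cases h : s + Int.fract x < 1
  · rw [Int.fract_eq_self.2 ⟨by linarith, h⟩]
    exact gg_add_le_one hs0 hx0
  · push Not at h
    have e2 : Int.fract (s + Int.fract x) = s + Int.fract x - 1 := by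
      have : Int.fract (s + Int.fract x - 1) = s + Int.fract x - 1 :=
        Int.fract_eq_self.2 ⟨by linarith, by linarith⟩
      rw [← this, Int.fract_sub_one]
    rw [e2]
    exact gg_add_ge_one hs1 hx1.le h

lemma gg_sum {ι : Type*} (t : Finset ι) (s : ι → ℝ) (h0 : ∀ i ∈ t, 0 ≤ s i)
    (h1 : ∀ i ∈ t, s i ≤ 1) : gg (Int.fract (∑ i ∈ t, s i)) ≤ ∑ i ∈ t, gg (s i) := by
  classical
  induction t using Finset.induction_on with
  | empty => simp [gg]
  | insert a t ha ih =>
    rw [Finset.sum_insert ha, Finset.sum_insert ha]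
    have := gg_fract_add (x := ∑ i ∈ t, s i) (h0 a (Finset.mem_insert_self _ _))
      (h1 a (Finset.mem_insert_self _ _))
    have ih' := ih (fun i hi => h0 i (Finset.mem_insert_of_mem hi))
      (fun i hi => h1 i (Finset.mem_insert_of_mem hi))
    linarith

/-- The row inequality for `a ≥ 2`. -/
lemma row_ineq {ι : Type*} [Fintype ι] {a : ℕ} (ha : 2 ≤ a) {c : ℝ} (hc : 7 / 16 ≤ c)
    (p S : ι → ℝ) (hp : ∀ j, 1 / ((a : ℝ) + 1) ≤ p j) (hS0 : ∀ j, 0 ≤ S j) (hS1 : ∀ j, S j ≤ 1)
    (hw : ∑ j, p j * S j = 1) :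
    ∑ j, p j * S j * ((a * log (1 + 1 / a) - log a) - log (1 + 1 / a) / p j - log (p j))
      ≤ c * ∑ j, p j * S j * (1 - √(S j)) := by
  have haR : (2 : ℝ) ≤ a := by exact_mod_cast ha
  have ha0 : (0 : ℝ) < a := by linarith
  have hp0 : ∀ j, 0 < p j := fun j => lt_of_lt_of_le (by positivity) (hp j)
  set B := log (1 + 1 / (a : ℝ)) with hB
  have hB1 : B ≤ 1 / a := by
    have := Real.log_le_sub_one_of_pos (x := 1 + 1 / (a : ℝ)) (by positivity)
    rw [hB]; linarith
  set q := ∑ j, S j with hq
  have hwq : ∑ j, (p j * S j) * (p j)⁻¹ = q := by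
    apply Finset.sum_congr rfl
    intro j _
    have := (hp0 j).ne'
    field_simp
  -- Jensen
  have hJ : ∑ j, (p j * S j) * log ((p j)⁻¹) ≤ log q := by
    have h := strictConcaveOn_log_Ioi.concaveOn.le_map_sum (t := Finset.univ)
      (w := fun j => p j * S j) (p := fun j => (p j)⁻¹)
      (fun j _ => mul_nonneg (hp0 j).le (hS0 j)) hw (fun j _ => Set.mem_Ioi.2 (inv_pos.2 (hp0 j)))
    simp only [smul_eq_mul] at h
    rw [hwq] at h
    exact h
  have hqpos : 0 < q := by
    rw [← hwq]
    have hne : ∃ j ∈ Finset.univ, 0 < (p j * S j) * (p j)⁻¹ := by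
      by_contra hcon
      push Not at hcon
      have : ∑ j, p j * S j ≤ 0 := by
        apply Finset.sum_nonpos
        intro j hj
        have := hcon j hj
        have h2 : 0 < (p j)⁻¹ := inv_pos.2 (hp0 j)
        by_contra h3
        push Not at h3
        exact absurd this (not_le.2 (mul_pos h3 h2))
      linarith
    obtain ⟨j, hj, hj0⟩ := hne
    apply Finset.sum_pos' _ ⟨j, hj, hj0⟩
    intro i _
    exact mul_nonneg (mul_nonneg (hp0 i).le (hS0 i)) (inv_nonneg.2 (hp0 i).le)
  have hqb : q ≤ a + 1 := by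
    rw [← hwq]
    calc ∑ j, (p j * S j) * (p j)⁻¹ ≤ ∑ j, (p j * S j) * ((a : ℝ) + 1) := by
          apply Finset.sum_le_sum
          intro j _
          apply mul_le_mul_of_nonneg_left _ (mul_nonneg (hp0 j).le (hS0 j))
          rw [inv_le_comm₀ (hp0 j) (by positivity)]
          simpa using hp j
      _ = a + 1 := by rw [← Finset.sum_mul, hw, one_mul]
  have hL : ∑ j, p j * S j * ((a * B - log a) - B / p j - log (p j))
      ≤ (a * B - log a) - B * q + log q := by
    have : ∑ j, p j * S j * ((a * B - log a) - B / p j - log (p j))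
        = (a * B - log a) * ∑ j, p j * S j - B * ∑ j, (p j * S j) * (p j)⁻¹
          + ∑ j, (p j * S j) * log ((p j)⁻¹) := by
      rw [Finset.mul_sum, Finset.mul_sum, ← Finset.sum_sub_distrib, ← Finset.sum_add_distrib]
      apply Finset.sum_congr rfl
      intro j _
      rw [Real.log_inv]
      ring
    rw [this, hw, hwq]
    linarith
  refine hL.trans ?_
  have hterm : ∀ j, 0 ≤ p j * S j * (1 - √(S j)) := by
    intro j
    have : √(S j) ≤ 1 := Real.sqrt_le_one.2 (hS1 j)
    exact mul_nonneg (mul_nonneg (hp0 j).le (hS0 j)) (by linarith)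
  have hc0 : 0 < c := by linarith
  by_cases hqa : q ≤ a
  · have h1 : log q - log a ≤ q / a - 1 := by
      rw [← Real.log_div hqpos.ne' ha0.ne']
      exact Real.log_le_sub_one_of_pos (by positivity)
    have h2 : B * (a - q) ≤ 1 / a * (a - q) := mul_le_mul_of_nonneg_right hB1 (by linarith)
    have h3 : 1 / (a : ℝ) * (a - q) = 1 - q / a := by field_simp
    have h4 : 0 ≤ c * ∑ j, p j * S j * (1 - √(S j)) :=
      mul_nonneg hc0.le (Finset.sum_nonneg fun j _ => hterm j)
    nlinarith
  · push Not at hqa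
    have hk := key_ineq haR (s := q - a) (by linarith) (by linarith) hc
    have e1 : (1 : ℝ) + (q - a) / a = q / a := by field_simp; ring
    rw [e1, Real.log_div hqpos.ne' ha0.ne'] at hk
    have e2 : gg (q - a) = gg (Int.fract q) := by
      rcases eq_or_lt_of_le hqb with h | h
      · rw [h]
        have : Int.fract ((a : ℝ) + 1) = 0 := by
          have : ((a : ℝ) + 1) = ((a + 1 : ℕ) : ℝ) := by push_cast; ring
          rw [this, Int.fract_natCast]
        rw [this]
        simp [gg]
      · have : Int.fract q = q - a := by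
          have h1 : Int.fract (q - a) = q - a := Int.fract_eq_self.2 ⟨by linarith, by linarith⟩
          rw [← h1, Int.fract_sub_natCast]
        rw [this]
    have hsum := gg_sum Finset.univ S (fun i _ => hS0 i) (fun i _ => hS1 i)
    rw [← hq, ← e2] at hsum
    have hle : ∑ j, gg (S j) ≤ (a + 1) * ∑ j, p j * S j * (1 - √(S j)) := by
      rw [Finset.mul_sum]
      apply Finset.sum_le_sum
      intro j _
      have h1 : 1 ≤ (a + 1) * p j := by
        have := mul_le_mul_of_nonneg_left (hp j) (by positivity : (0:ℝ) ≤ (a:ℝ) + 1)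
        rwa [mul_one_div_cancel (by positivity)] at this
      have h2 := gg_nonneg (hS0 j) (hS1 j)
      calc gg (S j) = 1 * gg (S j) := by ring
        _ ≤ ((a + 1) * p j) * gg (S j) := mul_le_mul_of_nonneg_right h1 h2
        _ = _ := by unfold gg; ring
    have hfin : c / (a + 1) * ((q - a) * (1 - √(q - a))) ≤ c * ∑ j, p j * S j * (1 - √(S j)) := by
      have : (q - a) * (1 - √(q - a)) ≤ (a + 1) * ∑ j, p j * S j * (1 - √(S j)) := hsum.trans hle
      calc c / (a + 1) * ((q - a) * (1 - √(q - a)))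
          ≤ c / (a + 1) * ((a + 1) * ∑ j, p j * S j * (1 - √(S j))) :=
            mul_le_mul_of_nonneg_left this (by positivity)
        _ = _ := by field_simp
    linarith

/-- Facts about a symmetric idempotent array with positive diagonal. -/
lemma K_row {ι : Type*} [Fintype ι] {K : ι → ι → ℝ} (hs : ∀ i j, K i j = K j i)
    (hK : ∀ i j, ∑ l, K i l * K l j = K i j) (i : ι) : ∑ j, K i j ^ 2 = K i i := by
  rw [← hK i i]
  apply Finset.sum_congr rfl
  intro j _
  rw [hs j i]; ring

lemma K_cs {ι : Type*} [Fintype ι] {K : ι → ι → ℝ} (hs : ∀ i j, K i j = K j i)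
    (hK : ∀ i j, ∑ l, K i l * K l j = K i j) (i j : ι) : K i j ^ 2 ≤ K i i * K j j := by
  rw [← hK i j]
  refine (Finset.sum_mul_sq_le_sq_mul_sq Finset.univ (fun l => K i l) (fun l => K l j)).trans ?_
  rw [K_row hs hK i]
  have : ∑ l, K l j ^ 2 = K j j := by
    rw [← K_row hs hK j]
    apply Finset.sum_congr rfl
    intro l _
    rw [hs l j]
  rw [this]

lemma K_diag_le_one {ι : Type*} [Fintype ι] {K : ι → ι → ℝ} (hs : ∀ i j, K i j = K j i)
    (hK : ∀ i j, ∑ l, K i l * K l j = K i j) (i : ι) : K i i ≤ 1 := by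
  have h1 := K_row hs hK i
  have h2 : K i i ^ 2 ≤ ∑ j, K i j ^ 2 :=
    Finset.single_le_sum (f := fun j => K i j ^ 2) (fun j _ => sq_nonneg _) (Finset.mem_univ i)
  rw [h1] at h2
  nlinarith [sq_nonneg (K i i)]

/-- The scalar part for `a ≥ 2` (`b = a + 1 ≥ 3`). -/
lemma scalar_big {ι : Type*} [Fintype ι] [DecidableEq ι] {K : ι → ι → ℝ}
    (hs : ∀ i j, K i j = K j i) (hK : ∀ i j, ∑ l, K i l * K l j = K i j)
    {a : ℕ} (ha : 2 ≤ a) {c : ℝ} (hc : 7 / 16 ≤ c) (hp : ∀ i, 1 / ((a : ℝ) + 1) ≤ K i i) :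
    ∑ i, ((a * log (1 + 1 / a) - log a) * K i i - log (1 + 1 / a) - K i i * log (K i i))
      ≤ c * ∑ i, ∑ j ∈ Finset.univ.erase i,
        K i j ^ 2 * (1 - |K i j| / (√(K i i) * √(K j j))) := by
  have hp0 : ∀ j, 0 < K j j := fun j => lt_of_lt_of_le (by positivity) (hp j)
  set B := log (1 + 1 / (a : ℝ)) with hB
  set A := (a * B - log a) with hA
  -- rewrite the right side with the diagonal included
  have hdiag : ∀ i, ∑ j ∈ Finset.univ.erase i, K i j ^ 2 * (1 - |K i j| / (√(K i i) * √(K j j)))
      = ∑ j, K i j ^ 2 * (1 - |K i j| / (√(K i i) * √(K j j))) := by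
    intro i
    apply Finset.sum_subset (Finset.erase_subset _ _)
    intro j _ hj
    have : j = i := by simpa using hj
    subst this
    rw [Real.mul_self_sqrt (hp0 j).le, abs_of_pos (hp0 j), div_self (hp0 j).ne']
    ring
  simp only [hdiag]
  -- row by row
  have hrow : ∀ i, ∑ j, K i j ^ 2 * (A - B / K j j - log (K j j))
      ≤ c * ∑ j, K i j ^ 2 * (1 - |K i j| / (√(K i i) * √(K j j))) := by
    intro i
    have h := row_ineq ha hc (fun j => K j j) (fun j => K i j ^ 2 / (K i i * K j j)) hp
      (fun j => by have := hp0 i; have := hp0 j; positivity)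
      (fun j => by
        rw [div_le_one (mul_pos (hp0 i) (hp0 j))]
        exact K_cs hs hK i j)
      (by
        have : ∀ j, K j j * (K i j ^ 2 / (K i i * K j j)) = K i j ^ 2 / K i i := by
          intro j
          have := (hp0 i).ne'
          have := (hp0 j).ne'
          field_simp
        simp only [this]
        rw [← Finset.sum_div, K_row hs hK i, div_self (hp0 i).ne'])
    rw [← hB, ← hA] at h
    have e1 : ∀ j, K j j * (K i j ^ 2 / (K i i * K j j)) = K i j ^ 2 / K i i := by
      intro j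
      have := (hp0 i).ne'
      have := (hp0 j).ne'
      field_simp
    have e2 : ∀ j, √(K i j ^ 2 / (K i i * K j j)) = |K i j| / (√(K i i) * √(K j j)) := by
      intro j
      rw [Real.sqrt_div (sq_nonneg _), Real.sqrt_sq_eq_abs, Real.sqrt_mul (hp0 i).le]
    simp only [e1, e2] at h
    have h2 := mul_le_mul_of_nonneg_left h (hp0 i).le
    rw [Finset.mul_sum, mul_left_comm, Finset.mul_sum] at h2
    have hi := (hp0 i).ne'
    have e3 : ∀ j, K i i * (K i j ^ 2 / K i i * (A - B / K j j - log (K j j)))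
        = K i j ^ 2 * (A - B / K j j - log (K j j)) := by
      intro j; field_simp
    have e4 : ∀ j, K i i * (K i j ^ 2 / K i i * (1 - |K i j| / (√(K i i) * √(K j j))))
        = K i j ^ 2 * (1 - |K i j| / (√(K i i) * √(K j j))) := by
      intro j; field_simp
    simp only [e3, e4] at h2
    exact h2
  have hsum := Finset.sum_le_sum (fun i (_ : i ∈ Finset.univ) => hrow i)
  rw [← Finset.mul_sum] at hsum
  refine le_trans (le_of_eq ?_) hsum
  rw [Finset.sum_comm]
  apply Finset.sum_congr rfl
  intro j _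
  rw [← Finset.sum_mul]
  have : ∑ i, K i j ^ 2 = K j j := by
    rw [← K_row hs hK j]
    apply Finset.sum_congr rfl
    intro l _
    rw [hs l j]
  rw [this]
  have := (hp0 j).ne'
  field_simp

/-- scalar inequality for `b = 2`. -/
lemma scal_two {p c : ℝ} (hp : 1 / 2 ≤ p) (hp1 : p ≤ 1) (hc : 7 / 16 ≤ c) :
    log 2 * p - log 2 - p * log p ≤ c * ((1 - p) * (2 * p - 1)) := by
  wlog hc' : c = 7 / 16 generalizing c with H
  · refine (H le_rfl rfl).trans ?_
    apply mul_le_mul_of_nonneg_right hc
    apply mul_nonneg <;> linarith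
  subst hc'
  have hl1 := Real.log_two_gt_d9
  have hl2 := Real.log_two_lt_d9
  set g : ℝ → ℝ := fun p => log p + (1 / p - 1) * (7 / 16 * (2 * p - 1) + log 2) with hg
  have hgd : ∀ x : ℝ, 0 < x → HasDerivAt g ((x + 7 / 16 - log 2 - 7 / 8 * x ^ 2) / x ^ 2) x := by
    intro x hx
    have h1 : HasDerivAt (fun p : ℝ => 1 / p - 1) (-1 / x ^ 2) x := by
      simpa [one_div, neg_div] using (hasDerivAt_inv hx.ne').sub_const 1
    have h2 : HasDerivAt (fun p : ℝ => 7 / 16 * (2 * p - 1) + log 2) (7 / 16 * (2 * 1)) x :=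
      ((((hasDerivAt_id x).const_mul 2).sub_const 1).const_mul (7 / 16)).add_const _
    have h3 := (Real.hasDerivAt_log hx.ne').add (h1.mul h2)
    refine h3.congr_deriv ?_
    field_simp
    ring
  have hcont : ContinuousOn g (Set.Ioi 0) := fun x hx =>
    (hgd x hx).continuousAt.continuousWithinAt
  have hpos : 0 < p := by linarith
  have hg0 : 0 ≤ g p := by
    by_cases hn : 0 ≤ p + 7 / 16 - log 2 - 7 / 8 * p ^ 2
    · -- monotone on [1/2, p]
      have hm : MonotoneOn g (Set.Icc (1 / 2) p) := by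
        apply monotoneOn_of_deriv_nonneg (convex_Icc _ _)
        · exact hcont.mono (fun x hx => lt_of_lt_of_le (by norm_num) hx.1)
        · intro x hx
          rw [interior_Icc] at hx
          exact (hgd x (lt_trans (by norm_num) hx.1)).differentiableAt.differentiableWithinAt
        · intro x hx
          rw [interior_Icc] at hx
          rw [(hgd x (lt_trans (by norm_num) hx.1)).deriv]
          apply div_nonneg _ (sq_nonneg _)
          -- concavity
          nlinarith [mul_nonneg (sub_nonneg.2 hx.1.le) (sub_nonneg.2 hx.2.le), hx.1, hx.2,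
            mul_nonneg (sub_nonneg.2 hx.1.le) hn]
      have h := hm (Set.left_mem_Icc.2 hp) (Set.right_mem_Icc.2 hp) hp
      have e : g (1 / 2) = 0 := by
        simp only [hg]
        rw [one_div, Real.log_inv]
        norm_num
      linarith
    · push Not at hn
      have hm : AntitoneOn g (Set.Icc p 1) := by
        apply antitoneOn_of_deriv_nonpos (convex_Icc _ _)
        · exact hcont.mono (fun x hx => lt_of_lt_of_le hpos hx.1)
        · intro x hx
          rw [interior_Icc] at hx
          exact (hgd x (lt_trans hpos hx.1)).differentiableAt.differentiableWithinAt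
        · intro x hx
          rw [interior_Icc] at hx
          rw [(hgd x (lt_trans hpos hx.1)).deriv]
          apply div_nonpos_of_nonpos_of_nonneg _ (sq_nonneg _)
          -- n(x) ≤ 0 because n(1/2) > 0 > n(p), concave
          have hpx := hx.1.le
          by_contra hcon
          push Not at hcon
          nlinarith [mul_nonneg (sub_nonneg.2 hpx) (sub_nonneg.2 hp),
            mul_nonneg (sub_nonneg.2 hp) hcon.le]
      have h := hm (Set.left_mem_Icc.2 hp1) (Set.right_mem_Icc.2 hp1) hp1
      have e : g 1 = 0 := by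
        simp [hg]
      linarith
  have h2 := mul_nonneg hpos.le hg0
  simp only [hg] at h2
  have e : p * (log p + (1 / p - 1) * (7 / 16 * (2 * p - 1) + log 2))
      = p * log p + (1 - p) * (7 / 16 * (2 * p - 1) + log 2) := by
    field_simp
  rw [e] at h2
  nlinarith

/-- off-diagonal Cauchy–Schwarz for the complementary projection. -/
lemma K_cs_compl {ι : Type*} [Fintype ι] [DecidableEq ι] {K : ι → ι → ℝ}
    (hs : ∀ i j, K i j = K j i)
    (hK : ∀ i j, ∑ l, K i l * K l j = K i j) {i j : ι} (hij : i ≠ j) :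
    K i j ^ 2 ≤ (1 - K i i) * (1 - K j j) := by
  set M : ι → ι → ℝ := fun i j => (if i = j then 1 else 0) - K i j with hM
  have hMs : ∀ i j, M i j = M j i := by
    intro i j
    simp only [hM, hs i j, eq_comm]
  have hMM : ∀ i j, ∑ l, M i l * M l j = M i j := by
    intro i j
    have : ∀ l, M i l * M l j = (if i = l then (if l = j then (1 : ℝ) else 0) else 0)
        - (if i = l then K l j else 0) - (if l = j then K i l else 0) + K i l * K l j := by
      intro l
      simp only [hM]
      split_ifs <;> ring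
    simp only [this]
    rw [Finset.sum_add_distrib, Finset.sum_sub_distrib, Finset.sum_sub_distrib, hK i j]
    simp [hM]
  have h1 : M i j ^ 2 ≤ M i i * M j j := by
    rw [← hMM i j]
    refine (Finset.sum_mul_sq_le_sq_mul_sq Finset.univ (fun l => M i l) (fun l => M l j)).trans ?_
    rw [K_row hMs hMM i]
    have : ∑ l, M l j ^ 2 = M j j := by
      rw [← K_row hMs hMM j]
      apply Finset.sum_congr rfl
      intro l _
      rw [hMs l j]
    rw [this]
  simpa [hM, hij] using h1

/-- The scalar part for `b = 2`. -/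
lemma scalar_two {ι : Type*} [Fintype ι] [DecidableEq ι] {K : ι → ι → ℝ}
    (hs : ∀ i j, K i j = K j i) (hK : ∀ i j, ∑ l, K i l * K l j = K i j)
    {c : ℝ} (hc : 7 / 16 ≤ c) (hp : ∀ i, 1 / 2 ≤ K i i) :
    ∑ i, (log 2 * K i i - log 2 - K i i * log (K i i))
      ≤ c * ∑ i, ∑ j ∈ Finset.univ.erase i,
        K i j ^ 2 * (1 - |K i j| / (√(K i i) * √(K j j))) := by
  have hp0 : ∀ j, 0 < K j j := fun j => lt_of_lt_of_le (by norm_num) (hp j)
  have hp1 : ∀ j, K j j ≤ 1 := K_diag_le_one hs hK
  set R : ι → ℝ := fun i => (1 - K i i) / K i i with hR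
  have hR0 : ∀ i, 0 ≤ R i := fun i => div_nonneg (by linarith [hp1 i]) (hp0 i).le
  have hrho : ∀ i j, i ≠ j → |K i j| / (√(K i i) * √(K j j)) ≤ (R i + R j) / 2 := by
    intro i j hij
    have h1 : |K i j| ≤ √((1 - K i i) * (1 - K j j)) := Real.abs_le_sqrt (K_cs_compl hs hK hij)
    have h2 : |K i j| / (√(K i i) * √(K j j)) ≤ √(R i * R j) := by
      have : R i * R j = ((1 - K i i) * (1 - K j j)) / (K i i * K j j) := by
        simp only [hR]; rw [div_mul_div_comm]
      rw [this, Real.sqrt_div (mul_nonneg (by linarith [hp1 i]) (by linarith [hp1 j])),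
        Real.sqrt_mul (hp0 i).le]
      apply div_le_div_of_nonneg_right h1
      positivity
    refine h2.trans ?_
    have h3 : R i * R j ≤ ((R i + R j) / 2) ^ 2 := by nlinarith [sq_nonneg (R i - R j)]
    calc √(R i * R j) ≤ √(((R i + R j) / 2) ^ 2) := Real.sqrt_le_sqrt h3
      _ = (R i + R j) / 2 := Real.sqrt_sq (by linarith [hR0 i, hR0 j])
  -- lower bound of the double sum
  have hlow : ∑ i, ∑ j ∈ Finset.univ.erase i, K i j ^ 2 * (1 - (R i + R j) / 2)
      ≤ ∑ i, ∑ j ∈ Finset.univ.erase i, K i j ^ 2 * (1 - |K i j| / (√(K i i) * √(K j j))) := by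
    apply Finset.sum_le_sum
    intro i _
    apply Finset.sum_le_sum
    intro j hj
    have hij : i ≠ j := (Finset.ne_of_mem_erase hj).symm
    apply mul_le_mul_of_nonneg_left _ (sq_nonneg _)
    have := hrho i j hij
    linarith
  have hrow : ∀ i, ∑ j ∈ Finset.univ.erase i, K i j ^ 2 = K i i * (1 - K i i) := by
    intro i
    have h := Finset.add_sum_erase Finset.univ (fun j => K i j ^ 2) (Finset.mem_univ i)
    rw [K_row hs hK i] at h
    linear_combination h
  have hsplit : ∑ i, ∑ j ∈ Finset.univ.erase i, K i j ^ 2 * (1 - (R i + R j) / 2)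
      = ∑ i, (1 - K i i) * (2 * K i i - 1) := by
    have e1 : ∀ i, ∑ j ∈ Finset.univ.erase i, K i j ^ 2 * (1 - (R i + R j) / 2)
        = (∑ j ∈ Finset.univ.erase i, K i j ^ 2) * (1 - R i / 2)
          - ∑ j ∈ Finset.univ.erase i, K i j ^ 2 * (R j / 2) := by
      intro i
      rw [Finset.sum_mul, ← Finset.sum_sub_distrib]
      apply Finset.sum_congr rfl
      intro j _
      ring
    simp only [e1]
    rw [Finset.sum_sub_distrib]
    have e2 : ∑ i, ∑ j ∈ Finset.univ.erase i, K i j ^ 2 * (R j / 2)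
        = ∑ j, (∑ i ∈ Finset.univ.erase j, K j i ^ 2) * (R j / 2) := by
      have : ∀ i, ∑ j ∈ Finset.univ.erase i, K i j ^ 2 * (R j / 2)
          = ∑ j, if i ≠ j then K i j ^ 2 * (R j / 2) else 0 := by
        intro i
        rw [← Finset.sum_filter]
        apply Finset.sum_congr _ (fun _ _ => rfl)
        ext j
        simp [eq_comm]
      simp only [this]
      rw [Finset.sum_comm]
      apply Finset.sum_congr rfl
      intro j _
      rw [← Finset.sum_filter, Finset.sum_mul]
      apply Finset.sum_congr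
      · ext i; simp
      · intro i _
        rw [hs i j]
    rw [e2, ← Finset.sum_sub_distrib]
    apply Finset.sum_congr rfl
    intro i _
    rw [hrow i]
    have := (hp0 i).ne'
    simp only [hR]
    field_simp
    ring
  rw [hsplit] at hlow
  have hc0 : 0 ≤ c := by linarith
  refine le_trans ?_ (mul_le_mul_of_nonneg_left hlow hc0)
  rw [Finset.mul_sum]
  apply Finset.sum_le_sum
  intro i _
  exact scal_two (hp i) (hp1 i) hc

lemma log_balProd {N d a : ℕ} (ha : 1 ≤ a) (h1 : a * d < N) (h2 : N ≤ (a + 1) * d) :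
    -log (Fil27.balProd N d) = (a * log (1 + 1 / a) - log a) * d - log (1 + 1 / a) * N := by
  have hd : 0 < d := by
    rcases Nat.eq_zero_or_pos d with h | h
    · subst h; omega
    · exact h
  have haR : (0 : ℝ) < a := by exact_mod_cast ha
  have hb : log (1 + 1 / (a : ℝ)) = log (a + 1) - log a := by
    rw [← Real.log_div (by positivity) haR.ne']
    congr 1
    field_simp
  rcases Nat.lt_or_ge N ((a + 1) * d) with h3 | h3
  · have hq : N / d = a := Nat.div_eq_of_lt_le (by linarith) h3
    have hm : N % d = N - a * d := by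
      have := Nat.div_add_mod N d
      rw [hq] at this
      rw [mul_comm] at this
      omega
    have hNe : N = a * d + N % d := by omega
    have hlt : N % d < d := Nat.mod_lt _ hd
    unfold Fil27.balProd
    rw [hq]
    push_cast
    rw [Real.log_mul (by positivity) (by positivity), Real.log_pow, Real.log_pow, hb]
    have hN : (N : ℝ) = a * d + (N % d : ℕ) := by exact_mod_cast hNe
    rw [Nat.cast_sub hlt.le, hN]
    ring
  · have hNe : N = (a + 1) * d := le_antisymm h2 h3
    have hq : N / d = a + 1 := by rw [hNe]; exact Nat.mul_div_cancel _ hd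
    have hm : N % d = 0 := by rw [hNe]; exact Nat.mul_mod_left _ _
    unfold Fil27.balProd
    rw [hq, hm, hb, hNe]
    push_cast
    rw [pow_zero, one_mul, Nat.sub_zero, Real.log_pow]
    ring

/-- Combination. -/
lemma scalar_K {ι : Type*} [Fintype ι] [DecidableEq ι] {K : ι → ι → ℝ}
    (hs : ∀ i j, K i j = K j i) (hK : ∀ i j, ∑ l, K i l * K l j = K i j) {d b : ℕ}
    (htr : ∑ i, K i i = d) (hb : 2 ≤ b) (h1 : (b - 1) * d < Fintype.card ι)
    (h2 : Fintype.card ι ≤ b * d) (hp : ∀ i, 1 / (b : ℝ) ≤ K i i) {c : ℝ} (hc : 7 / 16 ≤ c) :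
    -log (Fil27.balProd (Fintype.card ι) d) ≤ ∑ i, K i i * log (K i i) +
      c * ∑ i, ∑ j ∈ Finset.univ.erase i,
        K i j ^ 2 * (1 - |K i j| / (√(K i i) * √(K j j))) := by
  obtain ⟨a, rfl⟩ : ∃ a, b = a + 1 := ⟨b - 1, by omega⟩
  have ha1 : 1 ≤ a := by omega
  rw [Nat.add_sub_cancel] at h1
  rw [log_balProd ha1 h1 h2]
  have hsum : ∑ i, ((a * log (1 + 1 / a) - log a) * K i i - log (1 + 1 / a) - K i i * log (K i i))
      = (a * log (1 + 1 / a) - log a) * d - log (1 + 1 / a) * (Fintype.card ι : ℝ)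
        - ∑ i, K i i * log (K i i) := by
    rw [Finset.sum_sub_distrib, Finset.sum_sub_distrib, ← Finset.mul_sum, htr]
    simp [mul_comm]
  have hmain : ∑ i, ((a * log (1 + 1 / a) - log a) * K i i - log (1 + 1 / a)
      - K i i * log (K i i)) ≤ c * ∑ i, ∑ j ∈ Finset.univ.erase i,
        K i j ^ 2 * (1 - |K i j| / (√(K i i) * √(K j j))) := by
    rcases Nat.lt_or_ge a 2 with h | h
    · have ha : a = 1 := by omega
      subst ha
      have h := scalar_two hs hK hc (fun i => by have := hp i; norm_num at this ⊢; exact this)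
      refine le_trans (le_of_eq ?_) h
      apply Finset.sum_congr rfl
      intro i _
      norm_num
    · exact scalar_big hs hK h hc (fun i => by have := hp i; push_cast at this; exact this)
  linarith

open Fil27
open scoped RealInnerProductSpace

lemma inner_eq {d : ℕ} (x y : V d) : ⟪x, y⟫ = ∑ a, x a * y a := by
  rw [PiLp.inner_apply]
  apply Finset.sum_congr rfl
  intro a _
  simp [mul_comm]

lemma frame_inner {ι : Type*} [Fintype ι] {d : ℕ} (z : ι → V d)
    (hI : frameM (fun _ => 1) z = 1) (x y : V d) : ∑ l, ⟪x, z l⟫ * ⟪z l, y⟫ = ⟪x, y⟫ := by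
  have hab : ∀ a b, ∑ l, z l a * z l b = (1 : Matrix (Fin d) (Fin d) ℝ) a b := by
    intro a b
    rw [← hI]
    simp [frameM]
  simp only [inner_eq]
  calc ∑ l, (∑ a, x a * z l a) * (∑ b, z l b * y b)
      = ∑ l, ∑ a, ∑ b, x a * (z l a * z l b) * y b := by
        apply Finset.sum_congr rfl
        intro l _
        rw [Finset.sum_mul_sum]
        apply Finset.sum_congr rfl
        intro a _
        apply Finset.sum_congr rfl
        intro b _
        ring
    _ = ∑ a, ∑ b, ∑ l, x a * (z l a * z l b) * y b := by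
        rw [Finset.sum_comm]
        apply Finset.sum_congr rfl
        intro a _
        rw [Finset.sum_comm]
    _ = ∑ a, ∑ b, x a * ((1 : Matrix (Fin d) (Fin d) ℝ) a b) * y b := by
        apply Finset.sum_congr rfl
        intro a _
        apply Finset.sum_congr rfl
        intro b _
        rw [← Finset.sum_mul, ← Finset.mul_sum, hab]
    _ = ∑ a, x a * y a := by
        apply Finset.sum_congr rfl
        intro a _
        simp [Matrix.one_apply]

lemma frame_trace {ι : Type*} [Fintype ι] {d : ℕ} (z : ι → V d)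
    (hI : frameM (fun _ => 1) z = 1) : ∑ i, ⟪z i, z i⟫ = (d : ℝ) := by
  have haa : ∀ a, ∑ l, z l a * z l a = 1 := by
    intro a
    have : (1 : Matrix (Fin d) (Fin d) ℝ) a a = 1 := Matrix.one_apply_eq a
    rw [← this, ← hI]
    simp [frameM]
  simp only [inner_eq]
  rw [Finset.sum_comm]
  simp [haa]

lemma c_ge : (7 : ℝ) / 16 ≤ √2 / π := by
  rw [div_le_div_iff₀ (by norm_num) Real.pi_pos]
  have h1 : (1.414 : ℝ) ≤ √2 := by
    apply Real.le_sqrt_of_sq_le; norm_num
  have h2 := Real.pi_lt_d2
  nlinarith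

end Fil24

namespace Fil27
open scoped RealInnerProductSpace

/-- scalar part: if all `p_i = ‖z_i‖² ≥ 1/b`, `(b-1) d < N ≤ b d`, `b ≥ 2`. -/
theorem scalar_part {ι : Type*} [Fintype ι] [DecidableEq ι] {d b : ℕ} (z : ι → V d)
    (hI : frameM (fun _ => 1) z = 1) (hb : 2 ≤ b) (h1 : (b - 1) * d < Fintype.card ι)
    (h2 : Fintype.card ι ≤ b * d) (hp : ∀ i, 1 / (b : ℝ) ≤ ‖z i‖ ^ 2) :
    -Real.log (balProd (Fintype.card ι) d) ≤ ∑ i, ‖z i‖ ^ 2 * Real.log (‖z i‖ ^ 2) +
      Real.sqrt 2 / Real.pi * ∑ i, ∑ j ∈ Finset.univ.erase i,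
        ⟪z i, z j⟫ ^ 2 * (1 - |⟪z i, z j⟫| / (‖z i‖ * ‖z j‖)) := by
  have h := Fil24.scalar_K (K := fun i j => ⟪z i, z j⟫) (fun i j => real_inner_comm _ _)
    (fun i j => Fil24.frame_inner z hI (z i) (z j)) (d := d) (b := b)
    (Fil24.frame_trace z hI) hb h1 h2
    (fun i => by rw [real_inner_self_eq_norm_sq]; exact hp i) Fil24.c_ge
  have e : ∀ i, Real.sqrt ⟪z i, z i⟫ = ‖z i‖ := fun i => by
    rw [real_inner_self_eq_norm_sq, Real.sqrt_sq (norm_nonneg _)]
  simp only [e] at h
  simpa only [real_inner_self_eq_norm_sq] using h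

end Fil27
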