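import Mathlib
import Pool.Agent.helper27.Fil.Defs
import Pool.Agent.helper24.FilScalar

/-!
Induction part of the proof of Filliman's lower bound (MP_3bca80_gt, Q1): the cone theorem
follows from the core estimate.
-/

namespace Fil24

open MeasureTheory Fil27 Matrix
open scoped RealInnerProductSpace

/-- linear map given by a matrix. -/
noncomputable def mL {d : ℕ} (A : Matrix (Fin d) (Fin d) ℝ) : V d →ₗ[ℝ] V d :=
  Matrix.toEuclideanLin A

lemma mL_apply {d : ℕ} (A : Matrix (Fin d) (Fin d) ℝ) (x : V d) (a : Fin d) :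
    mL A x a = ∑ c, A a c * x c := by
  simp [mL, Matrix.mulVec, dotProduct]

lemma mL_mul {d : ℕ} (A B : Matrix (Fin d) (Fin d) ℝ) (x : V d) :
    mL A (mL B x) = mL (A * B) x := by
  ext a
  simp only [mL_apply, Matrix.mul_apply]
  simp only [Finset.mul_sum, Finset.sum_mul]
  rw [Finset.sum_comm]
  apply Finset.sum_congr rfl
  intro c _
  apply Finset.sum_congr rfl
  intro e _
  ring

lemma mL_one {d : ℕ} (x : V d) : mL (1 : Matrix (Fin d) (Fin d) ℝ) x = x := by
  ext a
  simp [mL_apply, Matrix.one_apply]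

lemma det_mL {d : ℕ} (A : Matrix (Fin d) (Fin d) ℝ) : LinearMap.det (mL A) = A.det := by
  rw [mL, Matrix.toEuclideanLin_eq_toLin_orthonormal, LinearMap.det_toLin]

/-- matrix with rows `z i`. -/
def zM {ι : Type*} {d : ℕ} (z : ι → V d) : Matrix ι (Fin d) ℝ := Matrix.of fun i a => z i a

lemma frameM_eq {ι : Type*} [Fintype ι] {d : ℕ} (z : ι → V d) :
    frameM (fun _ => 1) z = (zM z)ᵀ * zM z := by
  ext a b
  simp [frameM, Matrix.mul_apply, zM]

lemma zM_map {ι : Type*} {d : ℕ} (z : ι → V d) (A : Matrix (Fin d) (Fin d) ℝ) :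
    zM (fun i => mL A (z i)) = zM z * Aᵀ := by
  ext i a
  simp [zM, mL_apply, Matrix.mul_apply, mul_comm]

lemma frameM_map {ι : Type*} [Fintype ι] {d : ℕ} (z : ι → V d)
    (A : Matrix (Fin d) (Fin d) ℝ) :
    frameM (fun _ => 1) (fun i => mL A (z i)) = A * frameM (fun _ => 1) z * Aᵀ := by
  rw [frameM_eq, frameM_eq, zM_map, Matrix.transpose_mul, Matrix.transpose_transpose]
  simp only [Matrix.mul_assoc]

/-- change of variables for the cone integral. -/
lemma coneInt_map {ι : Type*} [Fintype ι] {d : ℕ} (h : V d →ₗ[ℝ] ℝ) (z : ι → V d)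
    (A : Matrix (Fin d) (Fin d) ℝ) (hA : A.det ≠ 0) :
    coneInt (h ∘ₗ mL A) z = ENNReal.ofReal |A.det⁻¹| * coneInt h (fun i => mL A (z i)) := by
  have hdet : LinearMap.det (mL A) ≠ 0 := by rw [det_mL]; exact hA
  have hinv : ∀ x, mL A⁻¹ (mL A x) = x := fun x => by
    rw [mL_mul, Matrix.nonsing_inv_mul _ (isUnit_iff_ne_zero.2 hA), mL_one]
  have hinj : Function.Injective (mL A) := fun x y hxy => by
    rw [← hinv x, ← hinv y, hxy]
  have hemb : MeasurableEmbedding (mL A) :=
    ((mL A).continuous_of_finiteDimensional).measurableEmbedding hinj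
  have hpre : coneOf z = (mL A) ⁻¹' coneOf (fun i => mL A (z i)) := by
    ext y
    simp only [coneOf, Set.mem_ofPred_eq, Set.mem_preimage]
    constructor
    · rintro ⟨a, ha, rfl⟩
      exact ⟨a, ha, by simp⟩
    · rintro ⟨a, ha, hy⟩
      refine ⟨a, ha, hinj ?_⟩
      rw [hy]; simp
  have hmap := Measure.map_linearMap_addHaar_eq_smul_addHaar (volume : Measure (V d)) hdet
  rw [det_mL] at hmap
  unfold coneInt
  calc ∫⁻ y in coneOf z, ENNReal.ofReal (Real.exp (-((h ∘ₗ mL A) y)))
      = ∫⁻ y in (mL A) ⁻¹' coneOf (fun i => mL A (z i)),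
          ENNReal.ofReal (Real.exp (-(h (mL A y)))) := by rw [← hpre]; rfl
    _ = ∫⁻ y, ENNReal.ofReal (Real.exp (-(h y)))
          ∂(Measure.map (mL A) (volume.restrict ((mL A) ⁻¹' coneOf (fun i => mL A (z i))))) := by
        rw [hemb.lintegral_map]
    _ = ∫⁻ y, ENNReal.ofReal (Real.exp (-(h y)))
          ∂((Measure.map (mL A) volume).restrict (coneOf (fun i => mL A (z i)))) := by
        rw [hemb.restrict_map]
    _ = _ := by
        rw [hmap, Measure.restrict_smul, lintegral_smul_measure, smul_eq_mul]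

lemma balProd_self {d : ℕ} (hd : 1 ≤ d) : balProd d d = 1 := by
  simp [balProd, Nat.div_self hd]

lemma balProd_succ {N d : ℕ} (hd : 1 ≤ d) :
    balProd (N + 1) d * (N / d) = balProd N d * (N / d + 1) := by
  have hlt : N % d < d := Nat.mod_lt _ hd
  have hN := Nat.div_add_mod N d
  rcases Nat.lt_or_ge (N % d + 1) d with h | h
  · have h1 : (N + 1) / d = N / d := by
      rw [Nat.div_eq_of_lt_le]
      · rw [mul_comm]; omega
      · rw [add_mul, mul_comm]; omega
    have h2 : (N + 1) % d = N % d + 1 := by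
      have := Nat.div_add_mod (N + 1) d
      rw [h1] at this
      omega
    unfold balProd
    rw [h1, h2]
    obtain ⟨m, hm⟩ : ∃ m, d - N % d = m + 1 := ⟨d - N % d - 1, by omega⟩
    have hm2 : d - (N % d + 1) = m := by omega
    rw [hm, hm2]
    ring
  · have h3 : N % d + 1 = d := by omega
    have h1 : (N + 1) / d = N / d + 1 := by
      rw [Nat.div_eq_of_lt_le]
      · rw [add_mul, mul_comm]; omega
      · rw [add_mul, add_mul, mul_comm]; omega
    have h2 : (N + 1) % d = 0 := by
      have := Nat.div_add_mod (N + 1) d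
      rw [h1, mul_add] at this
      omega
    unfold balProd
    rw [h1, h2]
    obtain ⟨m, hm⟩ : ∃ m, d = m + 1 := ⟨d - 1, by omega⟩
    have hm2 : N % d = m := by omega
    have hm3 : d - N % d = 1 := by omega
    rw [hm3, hm2]
    subst hm
    simp only [pow_zero, one_mul, Nat.sub_zero, pow_succ]
    ring

lemma integral_Ici_exp : ∫ x : ℝ, (Set.Ici (0:ℝ)).indicator (fun x => Real.exp (-x)) x = 1 := by
  rw [integral_indicator measurableSet_Ici, integral_Ici_eq_integral_Ioi, integral_exp_neg_Ioi_zero]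

lemma integrable_Ici_exp :
    Integrable (fun x : ℝ => (Set.Ici (0:ℝ)).indicator (fun x => Real.exp (-x)) x) := by
  rw [integrable_indicator_iff measurableSet_Ici, integrableOn_Ici_iff_integrableOn_Ioi]
  exact exp_neg_integrableOn_Ioi 0 zero_lt_one |>.congr_fun (by intro x _; simp) measurableSet_Ioi

/-- the orthant integral. -/
lemma lintegral_orthant (d : ℕ) :
    ∫⁻ y : Fin d → ℝ in {y | ∀ i, 0 ≤ y i}, ENNReal.ofReal (Real.exp (-∑ i, y i)) = 1 := by
  have hmeas : MeasurableSet {y : Fin d → ℝ | ∀ i, 0 ≤ y i} := by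
    have : {y : Fin d → ℝ | ∀ i, 0 ≤ y i} = ⋂ i, (fun y : Fin d → ℝ => y i) ⁻¹' Set.Ici 0 := by
      ext y; simp
    rw [this]
    exact MeasurableSet.iInter fun i => measurable_pi_apply i measurableSet_Ici
  rw [← lintegral_indicator hmeas]
  have hfun : (fun y : Fin d → ℝ => ({y : Fin d → ℝ | ∀ i, 0 ≤ y i}).indicator
      (fun y => ENNReal.ofReal (Real.exp (-∑ i, y i))) y)
      = fun y => ENNReal.ofReal (∏ i, (Set.Ici (0:ℝ)).indicator (fun x => Real.exp (-x)) (y i)) := by
    ext y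
    by_cases hy : ∀ i, 0 ≤ y i
    · rw [Set.indicator_of_mem (by exact hy)]
      congr 1
      rw [← Finset.sum_neg_distrib, Real.exp_sum]
      apply Finset.prod_congr rfl
      intro i _
      rw [Set.indicator_of_mem (Set.mem_Ici.2 (hy i))]
    · rw [Set.indicator_of_notMem (by exact hy)]
      push Not at hy
      obtain ⟨i, hi⟩ := hy
      rw [Finset.prod_eq_zero (Finset.mem_univ i), ENNReal.ofReal_zero]
      rw [Set.indicator_of_notMem]
      simpa using hi
  rw [hfun]
  have hint : Integrable (fun y : Fin d → ℝ =>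
      ∏ i, (Set.Ici (0:ℝ)).indicator (fun x => Real.exp (-x)) (y i)) :=
    Integrable.fintype_prod (fun _ => integrable_Ici_exp)
  rw [← ofReal_integral_eq_lintegral_ofReal hint]
  · have := integral_fintype_prod_eq_prod (𝕜 := ℝ) (ι := Fin d) (E := fun _ => ℝ)
      (fun _ x => (Set.Ici (0:ℝ)).indicator (fun x => Real.exp (-x)) x)
      (μ := fun _ => (volume : Measure ℝ))
    rw [volume_pi, this]
    simp [integral_Ici_exp]
  · apply Filter.Eventually.of_forall
    intro y
    apply Finset.prod_nonneg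
    intro i _
    apply Set.indicator_nonneg
    intro x _
    exact (Real.exp_pos _).le

/-- standard basis. -/
noncomputable def eb {d : ℕ} (i : Fin d) : V d := EuclideanSpace.single i 1

lemma coneInt_eb {d : ℕ} (h : V d →ₗ[ℝ] ℝ) (hz : ∀ i, h (eb i) = 1) :
    coneInt h (eb (d := d)) = 1 := by
  have hexp : ∀ y : V d, y = ∑ i, y i • eb i := by
    intro y
    ext a
    simp [eb, Finset.sum_apply, Pi.single_apply]
  have hh : ∀ y : V d, h y = ∑ i, y i := by
    intro y
    conv_lhs => rw [hexp y]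
    simp [hz]
  have hcone : coneOf (eb (d := d)) = WithLp.ofLp ⁻¹' {y : Fin d → ℝ | ∀ i, 0 ≤ y i} := by
    ext y
    simp only [coneOf, Set.mem_ofPred_eq, Set.mem_preimage]
    constructor
    · rintro ⟨a, ha, rfl⟩ i
      have : (∑ i, a i • eb i : V d) i = a i := by
        simp [eb, Finset.sum_apply, Pi.single_apply]
      rw [this]
      exact ha i
    · intro hy
      exact ⟨fun i => y i, hy, hexp y⟩
  have hmp := PiLp.volume_preserving_ofLp (Fin d)
  have hme : MeasurableEmbedding (WithLp.ofLp : V d → (Fin d → ℝ)) :=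
    (MeasurableEquiv.toLp 2 (Fin d → ℝ)).symm.measurableEmbedding
  unfold coneInt
  rw [hcone]
  rw [← lintegral_orthant d, ← hmp.map_eq, hme.restrict_map, hme.lintegral_map]
  simp only [hh]

lemma volume_coneOf_eq_zero {ι : Type*} [Fintype ι] {d : ℕ} (z : ι → V d) {v : Fin d → ℝ}
    (hv : v ≠ 0) (hz : ∀ i, ∑ a, z i a * v a = 0) : volume (coneOf z) = 0 := by
  set f : V d →ₗ[ℝ] ℝ :=
    { toFun := fun y => ∑ a, y a * v a
      map_add' := by
        intro x y
        simp [add_mul, Finset.sum_add_distrib]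
      map_smul' := by
        intro c x
        simp [Finset.mul_sum, mul_assoc] } with hf
  have hfz : ∀ i, f (z i) = 0 := hz
  have hsub : coneOf z ⊆ (LinearMap.ker f : Set (V d)) := by
    rintro y ⟨a, _, rfl⟩
    simp [hfz]
  have hne : LinearMap.ker f ≠ ⊤ := by
    intro h
    obtain ⟨a, ha⟩ := Function.ne_iff.1 hv
    have : f (eb a) = 0 := by
      have : (eb a : V d) ∈ LinearMap.ker f := by rw [h]; trivial
      exact this
    rw [hf] at this
    simp [eb] at this
    exact ha this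
  exact measure_mono_null hsub (Measure.addHaar_submodule _ _ hne)

theorem coneInt_basis' {d : ℕ} (h : V d →ₗ[ℝ] ℝ) (z : Fin d → V d) (hz : ∀ i, h (z i) = 1) :
    ENNReal.ofReal (Matrix.det (frameM (fun _ => 1) z)) = coneInt h z ^ 2 := by
  rw [frameM_eq, Matrix.det_mul, Matrix.det_transpose]
  by_cases hdet : (zM z).det = 0
  · rw [hdet]
    obtain ⟨v, hv, hv0⟩ := Matrix.exists_mulVec_eq_zero_iff.2 hdet
    have hzero : volume (coneOf z) = 0 := by
      apply volume_coneOf_eq_zero z hv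
      intro i
      have := congrFun hv0 i
      simpa [Matrix.mulVec, dotProduct, zM] using this
    have : coneInt h z = 0 := by
      unfold coneInt
      rw [Measure.restrict_eq_zero.2 hzero, lintegral_zero_measure]
    rw [this]; simp
  · -- choose `A = (Zᵀ)⁻¹`
    set Z := zM z with hZ
    have hZt : Zᵀ.det ≠ 0 := by rwa [Matrix.det_transpose]
    have hmap : ∀ i, mL Zᵀ (eb i) = z i := by
      intro i
      ext a
      rw [mL_apply]
      simp [eb, hZ, zM]
    have h1 := coneInt_map h (eb (d := d)) Zᵀ hZt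
    have h2 : (fun i => mL Zᵀ (eb i)) = z := funext hmap
    rw [h2, coneInt_eb (h ∘ₗ mL Zᵀ) (fun i => by simp [hmap, hz]), Matrix.det_transpose] at h1
    have hpos : 0 < |Z.det| := abs_pos.2 hdet
    have h3 : coneInt h z = ENNReal.ofReal |Z.det| := by
      have e : ENNReal.ofReal |Z.det| * ENNReal.ofReal |Z.det⁻¹| = 1 := by
        rw [← ENNReal.ofReal_mul hpos.le, abs_inv, mul_inv_cancel₀ hpos.ne', ENNReal.ofReal_one]
      calc coneInt h z = 1 * coneInt h z := (one_mul _).symm
        _ = ENNReal.ofReal |Z.det| * (ENNReal.ofReal |Z.det⁻¹| * coneInt h z) := by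
            rw [← mul_assoc, e]
        _ = ENNReal.ofReal |Z.det| := by rw [← h1, mul_one]
    rw [h3, ← ENNReal.ofReal_pow (abs_nonneg _), sq_abs, sq]

/-- reduction to normalised frames. -/
lemma of_normalized {ι : Type*} [Fintype ι] {d : ℕ} {t : ENNReal}
    (H : ∀ (h : V d →ₗ[ℝ] ℝ) (z : ι → V d), (∀ i, h (z i) = 1) → frameM (fun _ => 1) z = 1 →
      1 ≤ t * coneInt h z ^ 2)
    (h : V d →ₗ[ℝ] ℝ) (z : ι → V d) (hz : ∀ i, h (z i) = 1) :
    ENNReal.ofReal (Matrix.det (frameM (fun _ => 1) z)) ≤ t * coneInt h z ^ 2 := by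
  by_cases hdet : Matrix.det (frameM (fun _ => 1) z) ≤ 0
  · rw [ENNReal.ofReal_of_nonpos hdet]; exact bot_le
  push Not at hdet
  set M := frameM (fun _ => 1) z with hM
  have hpsd : M.PosSemidef := by
    rw [hM, frameM_eq]
    have := Matrix.posSemidef_conjTranspose_mul_self (zM z)
    rwa [Matrix.conjTranspose_eq_transpose_of_trivial] at this
  obtain ⟨B, hB⟩ : ∃ B : Matrix (Fin d) (Fin d) ℝ, M = Bᵀ * B := by
    open scoped MatrixOrder in
    obtain ⟨B, hB⟩ := CStarAlgebra.nonneg_iff_eq_star_mul_self.mp hpsd.nonneg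
    exact ⟨B, by rw [hB, Matrix.star_eq_conjTranspose,
      Matrix.conjTranspose_eq_transpose_of_trivial]⟩
  have hMdet : M.det = B.det ^ 2 := by
    rw [hB, Matrix.det_mul, Matrix.det_transpose, sq]
  have hBdet : B.det ≠ 0 := by
    intro h0
    rw [hMdet, h0] at hdet
    norm_num at hdet
  have hBu : IsUnit B.det := isUnit_iff_ne_zero.2 hBdet
  set A := (Bᵀ)⁻¹ with hA
  have hAt : Aᵀ = B⁻¹ := by
    rw [hA, Matrix.transpose_nonsing_inv, Matrix.transpose_transpose]
  have hBtu : IsUnit (Bᵀ).det := by rwa [Matrix.det_transpose]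
  have hAB : A * Bᵀ = 1 := Matrix.nonsing_inv_mul _ hBtu
  have hBA : Bᵀ * A = 1 := Matrix.mul_nonsing_inv _ hBtu
  have hAdet : A.det * B.det = 1 := by
    rw [← Matrix.det_transpose B, ← Matrix.det_mul, hAB, Matrix.det_one]
  have hAdet0 : A.det ≠ 0 := left_ne_zero_of_mul_eq_one hAdet
  have hframe : frameM (fun _ => 1) (fun i => mL A (z i)) = 1 := by
    rw [frameM_map, ← hM, hB, hAt]
    calc A * (Bᵀ * B) * B⁻¹ = (A * Bᵀ) * (B * B⁻¹) := by simp only [Matrix.mul_assoc]
      _ = 1 := by rw [hAB, Matrix.mul_nonsing_inv _ hBu, one_mul]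
  have hinv : ∀ x : V d, mL Bᵀ (mL A x) = x := fun x => by rw [mL_mul, hBA, mL_one]
  have h1 := H (h ∘ₗ mL Bᵀ) (fun i => mL A (z i)) (fun i => by simp [hinv, hz]) hframe
  have h2 := coneInt_map (h ∘ₗ mL Bᵀ) z A hAdet0
  have h3 : (h ∘ₗ mL Bᵀ) ∘ₗ mL A = h := by
    apply LinearMap.ext
    intro x
    simp [hinv]
  rw [h3] at h2
  have hinvA : A.det⁻¹ = B.det := by
    field_simp
    linarith
  rw [h2, hinvA, mul_pow, ← ENNReal.ofReal_pow (abs_nonneg _), sq_abs, ← hMdet]
  calc ENNReal.ofReal M.det = ENNReal.ofReal M.det * 1 := (mul_one _).symm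
    _ ≤ ENNReal.ofReal M.det * (t * coneInt (h ∘ₗ mL Bᵀ) (fun i => mL A (z i)) ^ 2) := by gcongr
    _ = _ := by ring

lemma frame_remove {N d : ℕ} (z : Fin (N + 1) → V d) (hI : frameM (fun _ => 1) z = 1)
    (i : Fin (N + 1)) :
    (frameM (fun _ => 1) (fun j => z (i.succAbove j))).det = 1 - ‖z i‖ ^ 2 := by
  have h1 : frameM (fun _ => 1) (fun j => z (i.succAbove j))
      = 1 - Matrix.replicateCol Unit (fun a => z i a) * Matrix.replicateRow Unit (fun a => z i a) := by
    rw [← hI]
    ext a b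
    simp [frameM, Matrix.mul_apply, Fin.sum_univ_succAbove _ i]
  rw [h1, Matrix.det_one_sub_mul_comm]
  have h2 : ‖z i‖ ^ 2 = ∑ a, z i a * z i a := by
    rw [← real_inner_self_eq_norm_sq, inner_eq]
  rw [h2]
  simp [Matrix.mul_apply]

lemma coneInt_remove {N d : ℕ} (h : V d →ₗ[ℝ] ℝ) (z : Fin (N + 1) → V d) (i : Fin (N + 1)) :
    coneInt h (fun j => z (i.succAbove j)) ≤ coneInt h z := by
  unfold coneInt
  apply lintegral_mono_set
  rintro y ⟨a, ha, rfl⟩
  refine ⟨i.insertNth 0 a, ?_, ?_⟩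
  · intro j
    refine Fin.succAboveCases i ?_ ?_ j
    · simp
    · intro j; simpa using ha j
  · rw [Fin.sum_univ_succAbove _ i]
    simp

lemma balProd_pos {N d : ℕ} (hd : 1 ≤ d) (hN : d ≤ N) : 0 < balProd N d := by
  have : 1 ≤ N / d := (Nat.one_le_div_iff (by omega)).2 hN
  unfold balProd
  positivity

/-- The cone theorem, from the core estimate given as a hypothesis. -/
theorem cone_theorem_of_core {d : ℕ}
    (core : ∀ {M : ℕ} (h : V d →ₗ[ℝ] ℝ) (z : Fin M → V d),
      (∀ i, h (z i) = 1) → frameM (fun _ => 1) z = 1 →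
      ENNReal.ofReal (Real.exp (1 / 2 * (∑ i, ‖z i‖ ^ 2 * Real.log (‖z i‖ ^ 2) +
        Real.sqrt 2 / Real.pi * ∑ i, ∑ j ∈ Finset.univ.erase i,
          ⟪z i, z j⟫ ^ 2 * (1 - |⟪z i, z j⟫| / (‖z i‖ * ‖z j‖))))) ≤ coneInt h z)
    (hd : 1 ≤ d) {N : ℕ} (hN : d ≤ N) : ∀ (h : V d →ₗ[ℝ] ℝ) (z : Fin N → V d),
    (∀ i, h (z i) = 1) →
    ENNReal.ofReal (Matrix.det (frameM (fun _ => 1) z)) ≤
      (balProd N d : ENNReal) * coneInt h z ^ 2 := by
  induction N, hN using Nat.le_induction with
  | base =>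
    intro h z hz
    rw [balProd_self hd, Nat.cast_one, one_mul]
    exact (coneInt_basis' h z hz).le
  | succ N hN ih =>
    apply of_normalized
    intro h z hz hI
    set b := N / d + 1 with hb
    have hq1 : 1 ≤ N / d := (Nat.one_le_div_iff (by omega)).2 hN
    have hb2 : 2 ≤ b := by omega
    have hlt : N % d < d := Nat.mod_lt _ hd
    have hdm := Nat.div_add_mod N d
    have h1 : (b - 1) * d < Fintype.card (Fin (N + 1)) := by
      rw [Fintype.card_fin, hb, Nat.add_sub_cancel, mul_comm]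
      omega
    have h2 : Fintype.card (Fin (N + 1)) ≤ b * d := by
      rw [Fintype.card_fin, hb, add_mul, mul_comm]
      omega
    by_cases hp : ∀ i, 1 / (b : ℝ) ≤ ‖z i‖ ^ 2
    · -- core case
      have hs := scalar_part z hI hb2 h1 h2 hp
      have hc := core h z hz hI
      rw [Fintype.card_fin] at hs
      set X := (∑ i, ‖z i‖ ^ 2 * Real.log (‖z i‖ ^ 2) +
        Real.sqrt 2 / Real.pi * ∑ i, ∑ j ∈ Finset.univ.erase i,
          ⟪z i, z j⟫ ^ 2 * (1 - |⟪z i, z j⟫| / (‖z i‖ * ‖z j‖))) with hX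
      have hbp : 0 < balProd (N + 1) d := balProd_pos hd (by omega)
      have hbpR : (0 : ℝ) < balProd (N + 1) d := by exact_mod_cast hbp
      have h3 : 1 / (balProd (N + 1) d : ℝ) ≤ Real.exp X := by
        rw [one_div, ← Real.exp_log (inv_pos.2 hbpR), Real.log_inv]
        exact Real.exp_le_exp.2 hs
      have h4 : ENNReal.ofReal (Real.exp X) ≤ coneInt h z ^ 2 := by
        calc ENNReal.ofReal (Real.exp X) = ENNReal.ofReal (Real.exp (1 / 2 * X)) ^ 2 := by
              rw [← ENNReal.ofReal_pow (Real.exp_pos _).le, ← Real.exp_nat_mul]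
              congr 2; push_cast; ring
          _ ≤ coneInt h z ^ 2 := by gcongr
      calc (1 : ENNReal) = ENNReal.ofReal ((balProd (N + 1) d : ℝ) * (1 / (balProd (N + 1) d : ℝ))) := by
            rw [mul_one_div_cancel hbpR.ne', ENNReal.ofReal_one]
        _ ≤ ENNReal.ofReal ((balProd (N + 1) d : ℝ) * Real.exp X) := by gcongr
        _ = (balProd (N + 1) d : ENNReal) * ENNReal.ofReal (Real.exp X) := by
            rw [ENNReal.ofReal_mul hbpR.le, ENNReal.ofReal_natCast]
        _ ≤ _ := by gcongr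
    · push Not at hp
      obtain ⟨i, hi⟩ := hp
      have h3 := ih h (fun j => z (i.succAbove j)) (fun j => hz _)
      rw [frame_remove z hI i] at h3
      have h4 := coneInt_remove h z i
      have hbR : (0 : ℝ) < b := by positivity
      have h5 : ENNReal.ofReal (1 - 1 / (b : ℝ)) ≤ (balProd N d : ENNReal) * coneInt h z ^ 2 := by
        calc ENNReal.ofReal (1 - 1 / (b : ℝ)) ≤ ENNReal.ofReal (1 - ‖z i‖ ^ 2) := by
              apply ENNReal.ofReal_le_ofReal; linarith
          _ ≤ _ := h3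
          _ ≤ _ := by gcongr
      have hsucc := balProd_succ (N := N) hd
      have haR : (0 : ℝ) < (N / d : ℕ) := by exact_mod_cast hq1
      have hbe : (b : ℝ) = (N / d : ℕ) + 1 := by rw [hb]; push_cast; ring
      have hsuccR : (balProd (N + 1) d : ℝ) * (N / d : ℕ) = balProd N d * b := by
        rw [hbe]; exact_mod_cast hsucc
      have e1 : (b : ℝ) / (N / d : ℕ) * (1 - 1 / b) = 1 := by
        rw [hbe]; field_simp; ring
      have e2 : (b : ℝ) / (N / d : ℕ) * balProd N d = balProd (N + 1) d := by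
        field_simp
        linarith
      have hnn : (0 : ℝ) ≤ (b : ℝ) / (N / d : ℕ) := by positivity
      calc (1 : ENNReal) = ENNReal.ofReal ((b : ℝ) / (N / d : ℕ)) * ENNReal.ofReal (1 - 1 / b) := by
            rw [← ENNReal.ofReal_mul hnn, e1, ENNReal.ofReal_one]
        _ ≤ ENNReal.ofReal ((b : ℝ) / (N / d : ℕ)) *
              ((balProd N d : ENNReal) * coneInt h z ^ 2) := by gcongr
        _ = (balProd (N + 1) d : ENNReal) * coneInt h z ^ 2 := by
            rw [← mul_assoc, ← ENNReal.ofReal_natCast (balProd N d), ← ENNReal.ofReal_mul hnn, e2,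
              ENNReal.ofReal_natCast]

end Fil24

namespace Fil27

/-- base case / simplices: for `N = d` points there is equality. -/
theorem coneInt_basis {d : ℕ} (h : V d →ₗ[ℝ] ℝ) (z : Fin d → V d) (hz : ∀ i, h (z i) = 1) :
    ENNReal.ofReal (Matrix.det (frameM (fun _ => 1) z)) = coneInt h z ^ 2 :=
  Fil24.coneInt_basis' h z hz

end Fil27
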